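import Pool.Agent.P.MP_029dcd_co.F.B.Basic

/-! Layer B: hashing an integer model into a cyclic group of small order. -/

set_option autoImplicit false

namespace ECub.B

open CubicStab Finset

/-- the hash function -/
def hash_h (p q : ℕ) (z : ZMod q) : ZMod p := ((p * z.val / q : ℕ) : ZMod p)

theorem hash_A (p q : ℕ) [NeZero q] (z0 z1 z2 : ZMod q) (h : z0 + z1 + z2 = 0) :
    ∃ e : Fin 3, hash_h p q z0 + hash_h p q z1 + hash_h p q z2 + ((e : ℕ) : ZMod p) = 0 := by
  have hq : 0 < q := Nat.pos_of_ne_zero (NeZero.ne q)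
  have h1 : ((z0.val + z1.val + z2.val : ℕ) : ZMod q) = 0 := by
    push_cast
    simpa using h
  obtain ⟨m, hm⟩ := (ZMod.natCast_eq_zero_iff _ _).1 h1
  have e0 := Nat.div_add_mod (p * z0.val) q
  have e1 := Nat.div_add_mod (p * z1.val) q
  have e2 := Nat.div_add_mod (p * z2.val) q
  have r0 := Nat.mod_lt (p * z0.val) hq
  have r1 := Nat.mod_lt (p * z1.val) hq
  have r2 := Nat.mod_lt (p * z2.val) hq
  set d0 := p * z0.val / q
  set d1 := p * z1.val / q
  set d2 := p * z2.val / q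
  have hs : q * (d0 + d1 + d2) + (p * z0.val % q + p * z1.val % q + p * z2.val % q)
      = q * (p * m) := by
    have : q * (p * m) = p * (z0.val + z1.val + z2.val) := by rw [hm]; ring
    rw [this]; linarith [mul_add q (d0 + d1) d2, mul_add q d0 d1, mul_add p (z0.val + z1.val) z2.val,
      mul_add p z0.val z1.val]
  have hle : d0 + d1 + d2 ≤ p * m := by
    refine Nat.le_of_mul_le_mul_left ?_ hq
    omega
  have hlt : p * m < d0 + d1 + d2 + 3 := by
    refine Nat.lt_of_mul_lt_mul_left (a := q) ?_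
    rw [mul_add]; omega
  refine ⟨⟨p * m - (d0 + d1 + d2), by omega⟩, ?_⟩
  have : ((d0 + d1 + d2 + (p * m - (d0 + d1 + d2)) : ℕ) : ZMod p) = 0 := by
    rw [Nat.add_sub_cancel' hle]; simp
  unfold hash_h
  rw [← this]
  push_cast
  rfl

theorem hash_close (p q : ℕ) [NeZero q] (hp : 0 < p) (z z' : ZMod q)
    (h : hash_h p q z = hash_h p q z') :
    (z.val : ℤ) - z'.val ∈ Finset.Icc (-((q / p : ℕ) : ℤ)) ((q / p : ℕ) : ℤ) := by
  have hq : 0 < q := Nat.pos_of_ne_zero (NeZero.ne q)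
  have lt : ∀ y : ZMod q, p * y.val / q < p := fun y => by
    rw [Nat.div_lt_iff_lt_mul hq]
    exact Nat.mul_lt_mul_of_pos_left (ZMod.val_lt y) hp
  unfold hash_h at h
  rw [ZMod.natCast_eq_natCast_iff', Nat.mod_eq_of_lt (lt z), Nat.mod_eq_of_lt (lt z')] at h
  have e0 := Nat.div_add_mod (p * z.val) q
  have e1 := Nat.div_add_mod (p * z'.val) q
  have r0 := Nat.mod_lt (p * z.val) hq
  have r1 := Nat.mod_lt (p * z'.val) hq
  rw [h] at e0
  have key : ∀ a b : ℕ, p * a < p * b + q → a ≤ b + q / p := by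
    intro a b hab
    by_contra hc
    have h1 : b + q / p + 1 ≤ a := by omega
    have h2 := Nat.mul_le_mul_left p h1
    have h3 := Nat.div_add_mod q p
    have h4 := Nat.mod_lt q hp
    rw [mul_add, mul_add, mul_one] at h2
    omega
  have k1 := key z.val z'.val (by omega)
  have k2 := key z'.val z.val (by omega)
  rw [Finset.mem_Icc]
  generalize q / p = s at *
  omega

theorem hash_B (p q : ℕ) [Fact q.Prime] (hp : 0 < p) (hpq : p ≤ q) (a b : ZMod q) (hab : a ≠ b) :
    p * ((univ : Finset (ZMod q)).filter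
      fun l => hash_h p q (l * a) = hash_h p q (l * b)).card ≤ 3 * q := by
  have h1 : ((univ : Finset (ZMod q)).filter
      fun l => hash_h p q (l * a) = hash_h p q (l * b)).card
      ≤ (Finset.Icc (-((q / p : ℕ) : ℤ)) ((q / p : ℕ) : ℤ)).card := by
    refine Finset.card_le_card_of_injOn (fun l => ((l * a).val : ℤ) - (l * b).val) ?_ ?_
    · intro l hl
      exact hash_close p q hp _ _ (Finset.mem_filter.1 hl).2
    · intro l _ l' _ h
      have h2 := congrArg (fun t : ℤ => (t : ZMod q)) h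
      simp only [Int.cast_sub, Int.cast_natCast, ZMod.natCast_zmod_val] at h2
      have h3 : (l - l') * (a - b) = 0 := by linear_combination h2
      rcases mul_eq_zero.1 h3 with h4 | h4
      · exact sub_eq_zero.1 h4
      · exact absurd (sub_eq_zero.1 h4) hab
  have h2 : (Finset.Icc (-((q / p : ℕ) : ℤ)) ((q / p : ℕ) : ℤ)).card = 2 * (q / p) + 1 := by
    rw [Int.card_Icc]
    generalize q / p = s
    omega
  have h3 := Nat.mul_le_mul_left p (h1.trans h2.le)
  have h4 := Nat.mul_div_le q p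
  have h5 : p * (2 * (q / p) + 1) = 2 * (p * (q / p)) + p := by ring
  omega

theorem hash_model (N p : ℕ) (hp : 0 < p) (hN : N ≤ p) (P : Fin 3 → Finset Pt)
    (hP : ∀ i, (P i).card ≤ N) (φ : Fin 3 → Pt → ℤ) :
    ∃ ψ : Fin 3 → Pt → ZMod p,
      (∀ τ : Fin 3 → Pt, ∑ i, φ i (τ i) = 0 →
        ∃ e : Fin 3, ∑ i, ψ i (τ i) + ((e : ℕ) : ZMod p) = 0) ∧
      ∀ i, ((P i ×ˢ P i).filter fun x => φ i x.1 ≠ φ i x.2 ∧ ψ i x.1 = ψ i x.2).card ≤ 9 * N := by
  classical
  obtain ⟨q, hq1, hq⟩ := Nat.exists_infinite_primes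
    (p + 1 + (univ : Finset (Fin 3)).sup fun i =>
      (P i ×ˢ P i).sup fun x => (φ i x.1 - φ i x.2).natAbs)
  have : Fact q.Prime := ⟨hq⟩
  have hne : ∀ i, ∀ x ∈ P i ×ˢ P i, φ i x.1 ≠ φ i x.2 →
      ((φ i x.1 : ℤ) : ZMod q) ≠ ((φ i x.2 : ℤ) : ZMod q) := by
    intro i x hx h1 h2
    have h3 : ((φ i x.1 - φ i x.2 : ℤ) : ZMod q) = 0 := by push_cast; rw [h2, sub_self]
    rw [ZMod.intCast_zmod_eq_zero_iff_dvd] at h3
    have h4 := Nat.le_of_dvd (Int.natAbs_pos.2 (sub_ne_zero.2 h1)) (Int.natCast_dvd.1 h3)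
    have h5 : (φ i x.1 - φ i x.2).natAbs ≤
        (P i ×ˢ P i).sup fun x => (φ i x.1 - φ i x.2).natAbs :=
      Finset.le_sup (f := fun x : Pt × Pt => (φ i x.1 - φ i x.2).natAbs) hx
    have h6 : ((P i ×ˢ P i).sup fun x => (φ i x.1 - φ i x.2).natAbs) ≤
        (univ : Finset (Fin 3)).sup fun i =>
          (P i ×ˢ P i).sup fun x => (φ i x.1 - φ i x.2).natAbs :=
      Finset.le_sup (f := fun i : Fin 3 =>
        (P i ×ˢ P i).sup fun x => (φ i x.1 - φ i x.2).natAbs) (mem_univ i)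
    omega
  let c : ZMod q → Fin 3 → ℕ := fun l i => ((P i ×ˢ P i).filter fun x => φ i x.1 ≠ φ i x.2 ∧
    hash_h p q (l * (φ i x.1 : ℤ)) = hash_h p q (l * (φ i x.2 : ℤ))).card
  have hi : ∀ i, p * ∑ l, c l i ≤ N * N * (3 * q) := by
    intro i
    have e1 : ∑ l, c l i = ∑ x ∈ P i ×ˢ P i, ((univ : Finset (ZMod q)).filter fun l =>
        φ i x.1 ≠ φ i x.2 ∧
          hash_h p q (l * (φ i x.1 : ℤ)) = hash_h p q (l * (φ i x.2 : ℤ))).card := by
      simp only [c, Finset.card_filter]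
      exact Finset.sum_comm
    rw [e1, Finset.mul_sum]
    refine (Finset.sum_le_card_nsmul _ _ (3 * q) fun x hx => ?_).trans ?_
    · by_cases h1 : φ i x.1 = φ i x.2
      · simp [h1]
      · refine le_trans (Nat.mul_le_mul_left p (Finset.card_le_card ?_))
          (hash_B p q hp (by omega) _ _ (hne i x hx h1))
        intro l hl
        exact Finset.mem_filter.2 ⟨mem_univ _, (Finset.mem_filter.1 hl).2.2⟩
    · rw [Finset.card_product, smul_eq_mul]
      exact Nat.mul_le_mul_right _ (Nat.mul_le_mul (hP i) (hP i))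
  have hsum : ∑ l : ZMod q, p * ∑ i, c l i ≤ ∑ _l : ZMod q, 9 * (N * N) := by
    rw [← Finset.mul_sum, Finset.sum_comm, Finset.mul_sum, Fin.sum_univ_three, Finset.sum_const,
      Finset.card_univ, ZMod.card, smul_eq_mul]
    have := hi 0
    have := hi 1
    have := hi 2
    have : q * (9 * (N * N)) = 3 * (N * N * (3 * q)) := by ring
    omega
  obtain ⟨l, -, hl⟩ := Finset.exists_le_of_sum_le Finset.univ_nonempty hsum
  refine ⟨fun i x => hash_h p q (l * (φ i x : ℤ)), ?_, ?_⟩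
  · intro τ hτ
    rw [Fin.sum_univ_three] at hτ ⊢
    refine hash_A p q _ _ _ ?_
    have h2 := congrArg (fun t : ℤ => (t : ZMod q)) hτ
    simp only [Int.cast_add, Int.cast_zero] at h2
    linear_combination l * h2
  · intro i
    have h1 : c l i ≤ ∑ i, c l i :=
      Finset.single_le_sum (f := fun i => c l i) (fun _ _ => Nat.zero_le _) (mem_univ i)
    have h2 : p * c l i ≤ p * (9 * N) := by
      refine (Nat.mul_le_mul_left p h1).trans (hl.trans ?_)
      have := Nat.mul_le_mul_right N hN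
      have : p * (9 * N) = 9 * (p * N) := by ring
      omega
    exact Nat.le_of_mul_le_mul_left h2 hp

end ECub.B
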