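import Pool.Agent.P.MP_029dcd_co.F.B.Grid

/-! Layer B: a dense injective model in a group of prime order gives a cubic. -/

set_option autoImplicit false

namespace ECub.B

open CubicStab Finset

/-- elements in small fibres are few -/
lemma model_poor {α β : Type} [Fintype β] [DecidableEq β] (G H : Finset α) (f : α → β) {t : ℝ}
    (ht : 0 ≤ t) (hH : H ⊆ G)
    (h : ∀ g ∈ H, ((G.filter fun g' => f g' = f g).card : ℝ) ≤ t) :
    (H.card : ℝ) ≤ Fintype.card β * t := by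
  rw [card_eq_sum_card_fiberwise (f := f) (t := univ) fun _ _ => mem_univ _]
  push_cast
  rw [← card_univ, ← nsmul_eq_mul]
  refine sum_le_card_nsmul _ _ _ fun y _ => ?_
  rcases (H.filter fun g => f g = y).eq_empty_or_nonempty with e | ⟨g, hg⟩
  · rw [e]
    simpa using ht
  · obtain ⟨h1, rfl⟩ := mem_filter.1 hg
    refine le_trans ?_ (h g h1)
    exact_mod_cast card_le_card (filter_subset_filter _ hH)

lemma model_prog {p : ℕ} [Fact p.Prime] {x d : ZMod p} (hd : d ≠ 0) {i j : ℕ} (hi : i < p)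
    (hj : j < p) (h : x + i * d = x + j * d) : i = j := by
  have h1 : (i : ZMod p) = j := mul_right_cancel₀ hd (add_left_cancel h)
  have h2 := (ZMod.natCast_eq_natCast_iff' i j p).1 h1
  rwa [Nat.mod_eq_of_lt hi, Nat.mod_eq_of_lt hj] at h2

theorem model_cub (k : ℕ) (γ : ℝ) (hγ : 0 < γ) :
    ∃ η : ℝ, 0 < η ∧ ∃ p0 : ℕ, ∀ (p : ℕ) [Fact p.Prime], p0 ≤ p →
      ∀ (N : ℕ) (P : Fin 3 → Finset Pt) (T : Finset (Fin 3 → Pt)), TS k N P T →
      ∀ ψ : Fin 3 → Pt → ZMod p, (∀ i, Set.InjOn (ψ i) (P i : Set Pt)) →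
      (∀ τ ∈ T, ∑ i, ψ i (τ i) = 0) → γ * (p : ℝ) ^ 2 ≤ T.card → Cub (η * (p : ℝ) ^ 2) T := by
  classical
  obtain ⟨M, hM⟩ : ∃ M, M = 6 * k + 18 := ⟨_, rfl⟩
  obtain ⟨c, hc, p0, hgrid⟩ := grid_count (2 * (M + 4) + 1) γ hγ
  refine ⟨c ^ 2 / 8, by positivity, max p0 (max (2 * (M + 4) + 1) ⌈144 / c ^ 2⌉₊), ?_⟩
  intro p _ hp N P T h ψ hψ hsum hT
  have hp0 : p0 ≤ p := (le_max_left _ _).trans hp
  have hpM : 2 * (M + 4) < p := ((le_max_left _ _).trans (le_max_right _ _)).trans hp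
  have hpc : 144 / c ^ 2 ≤ (p : ℝ) :=
    Nat.ceil_le.1 (((le_max_right _ _).trans (le_max_right _ _)).trans hp)
  have hppos : (0 : ℝ) < p := by exact_mod_cast (Fact.out : p.Prime).pos
  rw [div_le_iff₀ (by positivity)] at hpc
  -- the model set
  let B : Finset (ZMod p × ZMod p) := T.image fun τ => (ψ 0 (τ 0), ψ 1 (τ 1))
  have hBcard : B.card = T.card := by
    refine card_image_of_injOn fun τ hτ τ' hτ' e => ?_
    exact ts_det h hτ hτ' (i := 0) (j := 1) (by decide)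
      (hψ 0 (h.mem τ hτ 0) (h.mem τ' hτ' 0) (congrArg Prod.fst e))
      (hψ 1 (h.mem τ hτ 1) (h.mem τ' hτ' 1) (congrArg Prod.snd e))
  have hex : ∀ z : ZMod p × ZMod p, ∃ τ : Fin 3 → Pt, z ∈ B →
      τ ∈ T ∧ ψ 0 (τ 0) = z.1 ∧ ψ 1 (τ 1) = z.2 := by
    intro z
    by_cases hz : z ∈ B
    · obtain ⟨τ, hτ, rfl⟩ := mem_image.1 hz
      exact ⟨τ, fun _ => ⟨hτ, rfl, rfl⟩⟩
    · exact ⟨fun _ => 0, fun h => absurd h hz⟩
  choose tr htr using hex
  let inv : Fin 3 → ZMod p → Pt := fun i => Function.invFunOn (ψ i) (P i : Set Pt)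
  have hinv : ∀ i, ∀ q ∈ P i, inv i (ψ i q) = q := fun i q hq =>
    (hψ i).leftInvOn_invFunOn hq
  have htr0 : ∀ z ∈ B, tr z 0 = inv 0 z.1 := fun z hz => by
    rw [← (htr z hz).2.1, hinv 0 _ (h.mem _ (htr z hz).1 0)]
  have htr1 : ∀ z ∈ B, tr z 1 = inv 1 z.2 := fun z hz => by
    rw [← (htr z hz).2.2, hinv 1 _ (h.mem _ (htr z hz).1 1)]
  have htr2 : ∀ z ∈ B, tr z 2 = inv 2 (-(z.1 + z.2)) := fun z hz => by
    have h1 := hsum _ (htr z hz).1
    rw [Fin.sum_univ_three, (htr z hz).2.1, (htr z hz).2.2] at h1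
    rw [neg_eq_of_add_eq_zero_right h1, hinv 2 _ (h.mem _ (htr z hz).1 2)]
  have hψ0 : ∀ z ∈ B, ψ 0 (inv 0 z.1) = z.1 := fun z hz => by
    rw [← htr0 z hz, (htr z hz).2.1]
  have hψ1 : ∀ z ∈ B, ψ 1 (inv 1 z.2) = z.2 := fun z hz => by
    rw [← htr1 z hz, (htr z hz).2.2]
  -- the grids
  have hG0 := hgrid p hp0 B (by rw [hBcard]; exact hT)
  obtain ⟨G, hGc, hG⟩ : ∃ G : Finset (ZMod p × ZMod p × ZMod p), c * (p : ℝ) ^ 3 ≤ G.card ∧
      ∀ g ∈ G, g.2.2 ≠ 0 ∧ ∀ i j : ℕ, i ≤ 2 * (M + 4) → j ≤ 2 * (M + 4) →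
        (g.1 + i * g.2.2, g.2.1 + j * g.2.2) ∈ B :=
    ⟨_, hG0, fun g hg => ⟨(mem_filter.1 hg).2.1, fun i j hi hj =>
      (mem_filter.1 hg).2.2 i j (by omega) (by omega)⟩⟩
  have hainj : ∀ g ∈ G, ∀ i j : ℕ, i ≤ 2 * (M + 4) → j ≤ 2 * (M + 4) →
      inv 0 (g.1 + i * g.2.2) = inv 0 (g.1 + j * g.2.2) → i = j := by
    intro g hg i j hi hj e
    have h1 := hψ0 _ ((hG g hg).2 i 0 hi (by omega))
    have h2 := hψ0 _ ((hG g hg).2 j 0 hj (by omega))
    exact model_prog (hG g hg).1 (by omega) (by omega)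
      (h1.symm.trans ((congrArg (ψ 0) e).trans h2))
  have hS : ∀ g : ZMod p × ZMod p × ZMod p, ∃ S : Finset Pt, g ∈ G → S ∈ Col (U P) ∧
      (∀ j, j ≤ M → inv 0 (g.1 + (M + 4 + j : ℕ) * g.2.2) ∈ S) ∧
      ∀ i, tr (g.1 + (M + 4 : ℕ) * g.2.2, g.2.1 + (M + 5 : ℕ) * g.2.2) i ∈ S := by
    intro g
    by_cases hg : g ∈ G
    swap
    · exact ⟨∅, fun h => absurd h hg⟩
    obtain ⟨S, h1, h2, h3⟩ := grid_cubic h M (by omega) (fun i => inv 0 (g.1 + i * g.2.2))
      (fun j => inv 1 (g.2.1 + j * g.2.2)) (fun l => inv 2 (-(g.1 + g.2.1 + l * g.2.2)))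
      (fun i j => tr (g.1 + i * g.2.2, g.2.1 + j * g.2.2))
      (fun i j hi hj => by
        have hz := (hG g hg).2 i j hi hj
        refine ⟨(htr _ hz).1, htr0 _ hz, htr1 _ hz, (htr2 _ hz).trans ?_⟩
        congr 1
        push_cast
        ring)
      (hainj g hg)
      (fun i j hi hj e => by
        have h1 := hψ1 _ ((hG g hg).2 0 i (by omega) hi)
        have h2 := hψ1 _ ((hG g hg).2 0 j (by omega) hj)
        exact model_prog (hG g hg).1 (by omega) (by omega)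
          (h1.symm.trans ((congrArg (ψ 1) e).trans h2)))
    exact ⟨S, fun _ => ⟨h1, h2, h3⟩⟩
  choose S hS using hS
  let f : ZMod p × ZMod p × ZMod p → ZMod p × ZMod p := fun g => (g.1, g.2.2)
  have hsame : ∀ g ∈ G, ∀ g' ∈ G, f g' = f g → S g' = S g := by
    intro g hg g' hg' e
    by_contra hne
    have h18 := col_inter (U_inj h) (hS g' hg').1 (hS g hg).1 hne
    have e1 : g'.1 = g.1 := (Prod.ext_iff.1 e).1
    have e2 : g'.2.2 = g.2.2 := (Prod.ext_iff.1 e).2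
    have h19 : (range 19).card ≤ (S g' ∩ S g).card := by
      refine card_le_card_of_injOn (fun j => inv 0 (g.1 + (M + 4 + j : ℕ) * g.2.2))
        (fun j hj => ?_) fun i hi j hj e => ?_
      · have hj' : j ≤ M := by
          have := mem_range.1 (mem_coe.1 hj)
          omega
        refine mem_coe.2 (mem_inter.2 ⟨?_, (hS g hg).2.1 j hj'⟩)
        have := (hS g' hg').2.1 j hj'
        rwa [e1, e2] at this
      · have hi' := mem_range.1 (mem_coe.1 hi)
        have hj' := mem_range.1 (mem_coe.1 hj)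
        have := hainj g hg (M + 4 + i) (M + 4 + j) (by omega) (by omega) e
        omega
    rw [card_range] at h19
    omega
  have hzB : ∀ g ∈ G, (g.1 + (M + 4 : ℕ) * g.2.2, g.2.1 + (M + 5 : ℕ) * g.2.2) ∈ B :=
    fun g hg => (hG g hg).2 _ _ (by omega) (by omega)
  -- rich grids
  let R := G.filter fun g => c * p / 2 ≤ ((G.filter fun g' => f g' = f g).card : ℝ)
  have hRG : R ⊆ G := filter_subset _ _
  have hR : c * (p : ℝ) ^ 3 / 2 ≤ R.card := by
    have h1 := model_poor G (G \ R) f (t := c * p / 2) (by positivity) sdiff_subset fun g hg => by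
      by_contra hlt
      exact (mem_sdiff.1 hg).2 (mem_filter.2 ⟨(mem_sdiff.1 hg).1, (not_le.1 hlt).le⟩)
    rw [Fintype.card_prod, ZMod.card] at h1
    have h2 : ((G \ R).card : ℝ) + R.card = G.card := by
      exact_mod_cast card_sdiff_add_card_eq_card hRG
    push_cast at h1
    nlinarith
  have hP1 : ((P 1).card : ℝ) ≤ p := by
    have h1 : (P 1).card ≤ (univ : Finset (ZMod p)).card :=
      card_le_card_of_injOn (ψ 1) (fun _ _ => mem_univ _) (hψ 1)
    rw [card_univ, ZMod.card] at h1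
    exact_mod_cast h1
  have hbig : ∀ g ∈ R, c * p / 2 ≤ ((S g ∩ P 1).card : ℝ) := by
    intro g hg
    refine (mem_filter.1 hg).2.trans ?_
    have h1 : (G.filter fun g' => f g' = f g).card ≤ (S g ∩ P 1).card := by
      refine card_le_card_of_injOn
        (fun g' => tr (g'.1 + (M + 4 : ℕ) * g'.2.2, g'.2.1 + (M + 5 : ℕ) * g'.2.2) 1)
        (fun g' hg' => ?_) fun g1 hg1 g2 hg2 e => ?_
      · obtain ⟨h1, h2⟩ := mem_filter.1 (mem_coe.1 hg')
        refine mem_coe.2 (mem_inter.2 ⟨?_, h.mem _ (htr _ (hzB g' h1)).1 1⟩)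
        rw [← hsame g (hRG hg) g' h1 h2]
        exact (hS g' h1).2.2 1
      · obtain ⟨h1, h2⟩ := mem_filter.1 (mem_coe.1 hg1)
        obtain ⟨h3, h4⟩ := mem_filter.1 (mem_coe.1 hg2)
        have e0 := h2.trans h4.symm
        have e1 : g1.1 = g2.1 := (Prod.ext_iff.1 e0).1
        have e2 : g1.2.2 = g2.2.2 := (Prod.ext_iff.1 e0).2
        have e3 := (htr _ (hzB g1 h1)).2.2.symm.trans
          ((congrArg (ψ 1) e).trans (htr _ (hzB g2 h3)).2.2)
        simp only [e2, add_left_inj] at e3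
        exact Prod.ext e1 (Prod.ext e3 e2)
    exact_mod_cast h1
  let F := R.image S
  have hFC : F ⊆ Col (U P) := fun S' hS' => by
    obtain ⟨g, hg, rfl⟩ := mem_image.1 hS'
    exact (hS g (hRG hg)).1
  have hF : (F.card : ℝ) * (c * p / 2) ≤ 2 * p := by
    have h1 := big_sum (U_inj h) (P 1) F hFC fun S' hS' => by
      obtain ⟨g, hg, rfl⟩ := mem_image.1 hS'
      have h2 := pow_le_pow_left₀ (by positivity) (hbig g hg) 2
      unfold Big
      nlinarith
    have h2 : F.card • (c * p / 2) ≤ ∑ S' ∈ F, ((S' ∩ P 1).card : ℝ) :=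
      card_nsmul_le_sum _ _ _ fun S' hS' => by
        obtain ⟨g, hg, rfl⟩ := mem_image.1 hS'
        exact hbig g hg
    rw [nsmul_eq_mul] at h2
    linarith
  have hF4 : (F.card : ℝ) * c ≤ 4 := by
    have : (F.card : ℝ) * c * p ≤ 4 * p := by linarith
    exact le_of_mul_le_mul_right this hppos
  have hfib : ∀ S' ∈ F, ((R.filter fun g => S g = S').card : ℝ) ≤ p * (covS S' T).card := by
    intro S' _
    have h1 : (R.filter fun g => S g = S').card ≤
        ((univ : Finset (ZMod p)) ×ˢ covS S' T).card := by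
      refine card_le_card_of_injOn
        (fun g => (g.2.2, tr (g.1 + (M + 4 : ℕ) * g.2.2, g.2.1 + (M + 5 : ℕ) * g.2.2)))
        (fun g hg => ?_) fun g1 hg1 g2 hg2 e => ?_
      · obtain ⟨h1, rfl⟩ := mem_filter.1 (mem_coe.1 hg)
        exact mem_coe.2 (mem_product.2 ⟨mem_univ _,
          mem_covS.2 ⟨(htr _ (hzB g (hRG h1))).1, (hS g (hRG h1)).2.2⟩⟩)
      · have h1 := hzB g1 (hRG (mem_filter.1 (mem_coe.1 hg1)).1)
        have h2 := hzB g2 (hRG (mem_filter.1 (mem_coe.1 hg2)).1)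
        have e2 : g1.2.2 = g2.2.2 := congrArg Prod.fst e
        have e0 := congrArg Prod.snd e
        have e1 := (htr _ h1).2.1.symm.trans
          ((congrArg (fun τ => ψ 0 (τ 0)) e0).trans (htr _ h2).2.1)
        have e3 := (htr _ h1).2.2.symm.trans
          ((congrArg (fun τ => ψ 1 (τ 1)) e0).trans (htr _ h2).2.2)
        simp only [e2, add_left_inj] at e1 e3
        exact Prod.ext e1 (Prod.ext e3 e2)
    rw [card_product, card_univ, ZMod.card] at h1
    exact_mod_cast h1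
  by_contra hno
  have hlt : ∀ S' ∈ F, ((covS S' T).card : ℝ) < c ^ 2 / 8 * (p : ℝ) ^ 2 := fun S' hS' => by
    by_contra hge
    exact hno (cub_of_col (hFC hS') (not_lt.1 hge))
  have hRne : R.Nonempty := by
    rw [← card_pos]
    have : (0 : ℝ) < R.card := lt_of_lt_of_le (by positivity) hR
    exact_mod_cast this
  have h1 : (R.card : ℝ) = ∑ S' ∈ F, ((R.filter fun g => S g = S').card : ℝ) := by
    exact_mod_cast card_eq_sum_card_image S R
  have h2 : ∑ S' ∈ F, ((R.filter fun g => S g = S').card : ℝ) <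
      ∑ _S' ∈ F, (p : ℝ) * (c ^ 2 / 8 * (p : ℝ) ^ 2) :=
    sum_lt_sum_of_nonempty (hRne.image S) fun S' hS' =>
      (hfib S' hS').trans_lt (mul_lt_mul_of_pos_left (hlt S' hS') hppos)
  rw [sum_const, nsmul_eq_mul] at h2
  have h3 : (F.card : ℝ) * c * (c * (p : ℝ) ^ 3 / 8) ≤ 4 * (c * (p : ℝ) ^ 3 / 8) :=
    mul_le_mul_of_nonneg_right hF4 (by positivity)
  nlinarith

end ECub.B
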