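import Pool.Agent.P.MP_029dcd_co.F.B.Basic

/-! Layer B: from few collisions to injective maps on a dense sub-system. -/

set_option autoImplicit false

namespace ECub.B

open CubicStab Finset

open Classical in
/-- the rank of a point in its fibre -/
noncomputable def thin_rk {β : Type} (A : Finset Pt) (f : Pt → β) (p : Pt) : ℕ :=
  (A.filter fun q => f q = f p ∧ q.1 < p.1).card

theorem thin_rk_lt {β : Type} {A : Finset Pt} {f : Pt → β} {p q : Pt} (hp : p ∈ A)
    (e : f p = f q) (h : p.1 < q.1) : thin_rk A f p < thin_rk A f q := by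
  classical
  unfold thin_rk
  apply Finset.card_lt_card
  refine ⟨fun x hx => ?_, fun hs => ?_⟩
  · obtain ⟨h1, h2, h3⟩ := mem_filter.1 hx
    exact mem_filter.2 ⟨h1, h2.trans e, h3.trans h⟩
  · have := hs (mem_filter.2 ⟨hp, e, h⟩)
    exact lt_irrefl _ (mem_filter.1 this).2.2

theorem thin_bad {β : Type} [DecidableEq β] (A : Finset Pt) (f : Pt → β) (L : ℕ) :
    (A.filter fun p => L ≤ thin_rk A f p).card * L ≤
      ((A ×ˢ A).filter fun x => f x.1 = f x.2).card := by
  classical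
  have h1 : (A.filter fun p => L ≤ thin_rk A f p).card * L ≤
      ∑ p ∈ A.filter (fun p => L ≤ thin_rk A f p), thin_rk A f p := by
    rw [← smul_eq_mul]
    exact card_nsmul_le_sum _ _ _ fun p hp => (mem_filter.1 hp).2
  have h2 : ∑ p ∈ A.filter (fun p => L ≤ thin_rk A f p), thin_rk A f p ≤
      ∑ p ∈ A, thin_rk A f p := sum_le_sum_of_subset (filter_subset _ _)
  have h3 : ((A ×ˢ A).filter fun x => f x.1 = f x.2).card =
      ∑ p ∈ A, (A.filter fun q => f p = f q).card := by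
    rw [card_filter, sum_product]
    exact sum_congr rfl fun p _ => (card_filter _ _).symm
  refine h1.trans (h2.trans ?_)
  rw [h3]
  refine sum_le_sum fun p _ => ?_
  unfold thin_rk
  refine card_le_card fun q hq => ?_
  simp only [mem_filter] at hq ⊢
  exact ⟨hq.1, hq.2.1.symm⟩

theorem thin_model (K : ℕ) (γ : ℝ) (hγ : 0 < γ) :
    ∃ γ' : ℝ, 0 < γ' ∧ ∀ (k N : ℕ) (P : Fin 3 → Finset Pt) (T : Finset (Fin 3 → Pt)),
      TS k N P T → γ * (N : ℝ) ^ 2 ≤ T.card →
      ∀ (β : Type) [DecidableEq β] (ψ : Fin 3 → Pt → β),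
      (∀ i, ((P i ×ˢ P i).filter fun x => ψ i x.1 = ψ i x.2).card ≤ K * N) →
      ∃ (P' : Fin 3 → Finset Pt) (T' : Finset (Fin 3 → Pt)), TS k N P' T' ∧ T' ⊆ T ∧
        γ' * (N : ℝ) ^ 2 ≤ T'.card ∧ ∀ i, Set.InjOn (ψ i) (P' i : Set Pt) := by
  classical
  obtain ⟨L, hL⟩ := exists_nat_gt (6 * (K : ℝ) / γ)
  have hL0 : (0 : ℝ) < L := lt_of_le_of_lt (by positivity) hL
  have hL1 : 0 < L := by exact_mod_cast hL0
  have hL2 : 6 * (K : ℝ) ≤ L * γ := ((div_lt_iff₀ hγ).1 hL).le
  refine ⟨γ / (2 * (L : ℝ) ^ 3), by positivity, fun k N P T h hT β _ ψ hψ => ?_⟩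
  set T0 := T.filter fun τ => ∀ i, thin_rk (P i) (ψ i) (τ i) < L with hT0
  set Bd : Fin 3 → Finset Pt := fun i => (P i).filter fun p => L ≤ thin_rk (P i) (ψ i) p with hBd
  have hsub : T ⊆ T0 ∪ univ.biUnion fun i => T.filter fun τ => τ i ∈ Bd i := by
    intro τ hτ
    by_cases hc : ∀ i, thin_rk (P i) (ψ i) (τ i) < L
    · exact mem_union_left _ (mem_filter.2 ⟨hτ, hc⟩)
    · push Not at hc
      obtain ⟨i, hi⟩ := hc
      exact mem_union_right _ (mem_biUnion.2 ⟨i, mem_univ _,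
        mem_filter.2 ⟨hτ, mem_filter.2 ⟨h.mem τ hτ i, hi⟩⟩⟩)
  have hb : ∀ i, ((T.filter fun τ => τ i ∈ Bd i).card : ℝ) ≤ γ / 6 * (N : ℝ) ^ 2 := by
    intro i
    have a1 : (T.filter fun τ => τ i ∈ Bd i).card ≤ (Bd i).card * N :=
      ts_deg h (filter_subset _ _) i fun τ hτ => (mem_filter.1 hτ).2
    have a2 : (Bd i).card * L ≤ K * N := (thin_bad (P i) (ψ i) L).trans (hψ i)
    have a3 : ((T.filter fun τ => τ i ∈ Bd i).card : ℝ) ≤ (Bd i).card * N := by
      exact_mod_cast a1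
    have a4 : ((Bd i).card : ℝ) * L ≤ K * N := by exact_mod_cast a2
    have hN : (0 : ℝ) ≤ N := Nat.cast_nonneg _
    have a5 : ((Bd i).card : ℝ) ≤ γ / 6 * N := by
      apply le_of_mul_le_mul_right _ hL0
      nlinarith [mul_le_mul_of_nonneg_right hL2 hN]
    nlinarith [mul_le_mul_of_nonneg_right a5 hN]
  have hc : (T.card : ℝ) ≤ T0.card + ∑ i, ((T.filter fun τ => τ i ∈ Bd i).card : ℝ) := by
    have := (card_le_card hsub).trans ((card_union_le _ _).trans
      (Nat.add_le_add_left card_biUnion_le _))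
    exact_mod_cast this
  have hT0c : γ / 2 * (N : ℝ) ^ 2 ≤ T0.card := by
    rw [Fin.sum_univ_three] at hc
    linarith [hb 0, hb 1, hb 2]
  obtain ⟨y, -, hy⟩ := exists_le_card_fiber_of_nsmul_le_card_of_maps_to
    (s := T0) (t := Fintype.piFinset fun _ : Fin 3 => range L)
    (f := fun τ i => thin_rk (P i) (ψ i) (τ i)) (b := γ / (2 * (L : ℝ) ^ 3) * (N : ℝ) ^ 2)
    (fun τ hτ => Fintype.mem_piFinset.2 fun i => mem_range.2 ((mem_filter.1 hτ).2 i))
    ⟨fun _ => 0, Fintype.mem_piFinset.2 fun _ => mem_range.2 hL1⟩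
    (by
      rw [Fintype.card_piFinset, nsmul_eq_mul]
      simp only [card_range, prod_const, card_univ, Fintype.card_fin, Nat.cast_pow]
      refine le_trans (le_of_eq ?_) hT0c
      field_simp)
  refine ⟨fun i => (P i).filter fun p => thin_rk (P i) (ψ i) p = y i, _, ?_, ?_, hy, ?_⟩
  · refine ts_mono h (fun i => filter_subset _ _)
      ((filter_subset _ _).trans (filter_subset _ _)) ?_
      fun i => (card_le_card (filter_subset _ _)).trans (h.card_le i)
    intro τ hτ i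
    obtain ⟨a1, a2⟩ := mem_filter.1 hτ
    exact mem_filter.2 ⟨h.mem τ (mem_filter.1 a1).1 i, congrFun a2 i⟩
  · exact (filter_subset _ _).trans (filter_subset _ _)
  · intro i p hp q hq e
    obtain ⟨a1, a2⟩ := mem_filter.1 (mem_coe.1 hp)
    obtain ⟨a3, a4⟩ := mem_filter.1 (mem_coe.1 hq)
    apply h.inj i i p a1 q a3
    rcases lt_trichotomy p.1 q.1 with h1 | h1 | h1
    · have := thin_rk_lt a1 e h1
      omega
    · exact h1
    · have := thin_rk_lt a3 e.symm h1
      omega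

end ECub.B
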