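import Pool.Agent.P.MP_029dcd_co.F.B.IntModel
import Pool.Agent.P.MP_029dcd_co.F.B.Hash
import Pool.Agent.P.MP_029dcd_co.F.B.Thin
import Pool.Agent.P.MP_029dcd_co.F.B.Model

/-! Layer B: additive structure with bounded multiplicities gives a cubic. -/

set_option autoImplicit false

namespace ECub.B

open CubicStab Finset

lemma addCub_pairs {W : Type} (A : Finset Pt) (φ : Pt → W) (ψ : Pt → ℤ) (M : ℕ)
    (h : ∀ p ∈ A, ∀ q ∈ A, ψ p = ψ q → φ p = φ q) (hM : ∀ x, (fib A φ x).card ≤ M) :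
    ((A ×ˢ A).filter fun x => ψ x.1 = ψ x.2).card ≤ M * A.card := by
  have h1 : ((A ×ˢ A).filter fun x => ψ x.1 = ψ x.2) ⊆
      A.biUnion fun p => (fib A φ (φ p)).image fun q => (p, q) := by
    rintro ⟨p, q⟩ hx
    obtain ⟨hx1, hx2⟩ := mem_filter.1 hx
    obtain ⟨hp, hq⟩ := mem_product.1 hx1
    exact mem_biUnion.2 ⟨p, hp, mem_image.2 ⟨q, mem_fib.2 ⟨hq, (h p hp q hq hx2).symm⟩, rfl⟩⟩
  refine (card_le_card h1).trans (card_biUnion_le.trans ?_)
  calc ∑ p ∈ A, ((fib A φ (φ p)).image fun q => (p, q)).card ≤ ∑ _p ∈ A, M :=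
        sum_le_sum fun p _ => card_image_le.trans (hM _)
    _ = M * A.card := by rw [sum_const, smul_eq_mul, mul_comm]

theorem add_cub' (k M : ℕ) (γ : ℝ) (hγ : 0 < γ) :
    ∃ η : ℝ, 0 < η ∧ ∃ N0 : ℕ, ∀ N, N0 ≤ N → ∀ (W : Type) [AddCommGroup W] [Module ℚ W]
      (P : Fin 3 → Finset Pt) (T : Finset (Fin 3 → Pt)), TS k N P T →
      γ * (N : ℝ) ^ 2 ≤ T.card → ∀ φ : Fin 3 → Pt → W, (∀ τ ∈ T, ∑ i, φ i (τ i) = 0) →
      (∀ i x, (fib (P i) (φ i) x).card ≤ M) → Cub (η * (N : ℝ) ^ 2) T := by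
  classical
  obtain ⟨γ', hγ', hthin⟩ := thin_model (M + 9) (γ / 3) (by positivity)
  obtain ⟨η, hη, p0, hmod⟩ := model_cub k (γ' / 4) (by positivity)
  refine ⟨η, hη, p0 + 1, fun N hN W _ _ P T h hT φ hφ hM => ?_⟩
  obtain ⟨φ1, hφ1, hφ1i⟩ := int_model W P φ
  obtain ⟨p, hp, hNp, hp2⟩ := Nat.exists_prime_lt_and_le_two_mul N (by omega)
  have : Fact p.Prime := ⟨hp⟩
  obtain ⟨ψ, hψ, hcol⟩ := hash_model N p hp.pos hNp.le P h.card_le φ1
  let Te : Fin 3 → Finset (Fin 3 → Pt) := fun e =>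
    T.filter fun τ => ∑ i, ψ i (τ i) + ((e : ℕ) : ZMod p) = 0
  have hcover : T ⊆ univ.biUnion Te := by
    intro τ hτ
    obtain ⟨e, he⟩ := hψ τ (hφ1 τ (h.mem τ hτ) (hφ τ hτ))
    exact mem_biUnion.2 ⟨e, mem_univ _, mem_filter.2 ⟨hτ, he⟩⟩
  have hsum : (T.card : ℝ) ≤ ∑ e, ((Te e).card : ℝ) := by
    exact_mod_cast (card_le_card hcover).trans card_biUnion_le
  obtain ⟨e, he⟩ : ∃ e, γ / 3 * (N : ℝ) ^ 2 ≤ (Te e).card := by
    by_contra hcon
    push Not at hcon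
    rw [Fin.sum_univ_three] at hsum
    linarith [hcon 0, hcon 1, hcon 2]
  have hsub : Te e ⊆ T := filter_subset _ _
  obtain ⟨P', T', h', hT', hc', hinj⟩ := hthin k N P (Te e) (ts_sub h hsub) he (ZMod p) ψ (by
    intro i
    have h1 : ((P i ×ˢ P i).filter fun x => ψ i x.1 = ψ i x.2) ⊆
        ((P i ×ˢ P i).filter fun x => φ1 i x.1 = φ1 i x.2) ∪
        ((P i ×ˢ P i).filter fun x => φ1 i x.1 ≠ φ1 i x.2 ∧ ψ i x.1 = ψ i x.2) := by
      intro x hx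
      obtain ⟨a1, a2⟩ := mem_filter.1 hx
      by_cases e1 : φ1 i x.1 = φ1 i x.2
      · exact mem_union_left _ (mem_filter.2 ⟨a1, e1⟩)
      · exact mem_union_right _ (mem_filter.2 ⟨a1, e1, a2⟩)
    have h2 := addCub_pairs (P i) (φ i) (φ1 i) M (hφ1i i) (hM i)
    have h3 := hcol i
    have h4 := (card_le_card h1).trans (card_union_le _ _)
    have h5 : M * (P i).card ≤ M * N := Nat.mul_le_mul_left _ (h.card_le i)
    calc _ ≤ M * N + 9 * N := by omega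
      _ = (M + 9) * N := by ring)
  have hpN : (p : ℝ) ≤ 2 * N := by exact_mod_cast hp2
  have hNp' : (N : ℝ) ≤ p := by exact_mod_cast hNp.le
  have hcub := hmod p (by omega) N P' T' h'
    (fun i x => ψ i x + if i = 2 then ((e : ℕ) : ZMod p) else 0)
    (fun i x hx y hy exy => hinj i hx hy (add_right_cancel exy))
    (fun τ hτ => by
      have := (mem_filter.1 (hT' hτ)).2
      rw [sum_add_distrib, sum_ite_eq' univ (2 : Fin 3), if_pos (mem_univ _)]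
      exact this)
    (by
      refine le_trans ?_ hc'
      have : (p : ℝ) ^ 2 ≤ (2 * N) ^ 2 := pow_le_pow_left₀ (Nat.cast_nonneg _) hpN 2
      nlinarith)
  refine cub_mono hcub (hT'.trans hsub) ?_
  exact mul_le_mul_of_nonneg_left (pow_le_pow_left₀ (Nat.cast_nonneg _) hNp' 2) hη.le

end ECub.B
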