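import Pool.Agent.P.MP_029dcd_co.F.LayA

/-! Layer B, basic facts on triple systems and zero sets of irreducible cubics. -/

set_option autoImplicit false

namespace ECub.B

open CubicStab Finset

/-- all points of a triple system -/
noncomputable def U (P : Fin 3 → Finset Pt) : Finset Pt := univ.biUnion P

lemma mem_U {P : Fin 3 → Finset Pt} {p : Pt} : p ∈ U P ↔ ∃ i, p ∈ P i := by
  simp [U]

open Classical in
/-- zero set of `f` inside `A` -/
noncomputable def zs (A : Finset Pt) (f : Pl) : Finset Pt := A.filter fun p => ev f p = 0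

lemma mem_zs {A : Finset Pt} {f : Pl} {p : Pt} : p ∈ zs A f ↔ p ∈ A ∧ ev f p = 0 := by
  classical
  unfold zs; rw [mem_filter]

open Classical in
/-- the zero sets inside `A` of irreducible cubics -/
noncomputable def Col (A : Finset Pt) : Finset (Finset Pt) :=
  A.powerset.filter fun S => ∃ f : Pl, Irreducible f ∧ f.totalDegree ≤ 3 ∧ S = zs A f

lemma mem_Col {A S : Finset Pt} :
    S ∈ Col A ↔ ∃ f : Pl, Irreducible f ∧ f.totalDegree ≤ 3 ∧ S = zs A f := by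
  classical
  unfold Col
  rw [mem_filter, mem_powerset]
  refine ⟨fun h => h.2, fun h => ⟨?_, h⟩⟩
  obtain ⟨f, -, -, rfl⟩ := h
  exact fun P hP => (mem_zs.1 hP).1

lemma col_inter {A : Finset Pt} (hinj : Set.InjOn Prod.fst (A : Set Pt)) {S S' : Finset Pt}
    (h : S ∈ Col A) (h' : S' ∈ Col A) (hne : S ≠ S') : (S ∩ S').card ≤ 18 := by
  obtain ⟨f, hf, hf3, rfl⟩ := mem_Col.1 h
  obtain ⟨g, hg, hg3, rfl⟩ := mem_Col.1 h'
  have hi : Set.InjOn Prod.fst ((zs A f ∩ zs A g : Finset Pt) : Set Pt) :=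
    hinj.mono fun P hP => (mem_zs.1 (mem_inter.1 hP).1).1
  have hz : ∀ P ∈ zs A f ∩ zs A g, ev f P = 0 ∧ ev g P = 0 := fun P hP =>
    ⟨(mem_zs.1 (mem_inter.1 hP).1).2, (mem_zs.1 (mem_inter.1 hP).2).2⟩
  by_cases h1 : f ∣ g
  · by_cases h2 : g ∣ f
    · exfalso
      apply hne
      ext P
      obtain ⟨a, ha⟩ := h1
      obtain ⟨b, hb⟩ := h2
      simp only [mem_zs]
      constructor
      · rintro ⟨hP, e⟩; exact ⟨hP, by rw [ha, ev_mul, e, zero_mul]⟩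
      · rintro ⟨hP, e⟩; exact ⟨hP, by rw [hb, ev_mul, e, zero_mul]⟩
    · exact bezout g f hg h2 hg3 hf3 _ hi fun P hP => (hz P hP).symm
  · exact bezout f g hf h1 hf3 hg3 _ hi hz

open Classical in
/-- the triples of `T` all of whose points are in `S` -/
noncomputable def covS (S : Finset Pt) (T : Finset (Fin 3 → Pt)) : Finset (Fin 3 → Pt) :=
  T.filter fun τ => ∀ i, τ i ∈ S

lemma mem_covS {S : Finset Pt} {T : Finset (Fin 3 → Pt)} {τ : Fin 3 → Pt} :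
    τ ∈ covS S T ↔ τ ∈ T ∧ ∀ i, τ i ∈ S := by
  classical
  unfold covS; rw [mem_filter]

lemma covS_mono (S : Finset Pt) {T T' : Finset (Fin 3 → Pt)} (h : T ⊆ T') :
    covS S T ⊆ covS S T' := fun _ hτ =>
  mem_covS.2 ⟨h (mem_covS.1 hτ).1, (mem_covS.1 hτ).2⟩

lemma mem_cov {f : Pl} {T : Finset (Fin 3 → Pt)} {τ : Fin 3 → Pt} :
    τ ∈ cov f T ↔ τ ∈ T ∧ ∀ i, ev f (τ i) = 0 := by
  classical
  unfold cov; rw [mem_filter]

lemma cub_mono {x x' : ℝ} {T T' : Finset (Fin 3 → Pt)} (h : Cub x T) (hT : T ⊆ T')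
    (hx : x' ≤ x) : Cub x' T' := by
  obtain ⟨f, h0, h3, hc⟩ := h
  refine ⟨f, h0, h3, hx.trans (hc.trans ?_)⟩
  exact_mod_cast card_le_card fun τ hτ => mem_cov.2 ⟨hT (mem_cov.1 hτ).1, (mem_cov.1 hτ).2⟩

lemma cub_of_col {A S : Finset Pt} (hS : S ∈ Col A) {x : ℝ} {T : Finset (Fin 3 → Pt)}
    (hx : x ≤ (covS S T).card) : Cub x T := by
  obtain ⟨f, hf, h3, rfl⟩ := mem_Col.1 hS
  refine ⟨f, hf.ne_zero, h3, hx.trans ?_⟩
  exact_mod_cast card_le_card fun τ hτ =>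
    mem_cov.2 ⟨(mem_covS.1 hτ).1, fun i => (mem_zs.1 ((mem_covS.1 hτ).2 i)).2⟩

variable {k N : ℕ} {P : Fin 3 → Finset Pt} {T : Finset (Fin 3 → Pt)}

lemma ts_mono (h : TS k N P T) {N' : ℕ} {P' : Fin 3 → Finset Pt} {T' : Finset (Fin 3 → Pt)}
    (hP : ∀ i, P' i ⊆ P i) (hT : T' ⊆ T) (hm : ∀ τ ∈ T', ∀ i, τ i ∈ P' i)
    (hc : ∀ i, (P' i).card ≤ N') : TS k N' P' T' where
  card_le := hc
  disj := fun i j hij => (h.disj i j hij).mono (hP i) (hP j)
  inj := fun i j p hp q hq => h.inj i j p (hP i hp) q (hP j hq)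
  few := fun v S hS hv => h.few v S (fun p hp => (hS p hp).imp fun i hi => hP i hi) hv
  mem := hm
  col := fun τ hτ => h.col τ (hT hτ)
  one := fun τ hτ τ' hτ' => h.one τ (hT hτ) τ' (hT hτ')

lemma ts_sub (h : TS k N P T) {T' : Finset (Fin 3 → Pt)} (hT : T' ⊆ T) : TS k N P T' :=
  ts_mono h (fun _ => Subset.rfl) hT (fun τ hτ => h.mem τ (hT hτ)) h.card_le

lemma ts_ne (h : TS k N P T) {i j : Fin 3} (hij : i ≠ j) {p q : Pt} (hp : p ∈ P i)
    (hq : q ∈ P j) : p ≠ q := by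
  rintro rfl
  exact disjoint_left.1 (h.disj i j hij) hp hq

/-- a line through two points of a triple is the line of the triple -/
lemma ts_line (h : TS k N P T) {τ : Fin 3 → Pt} (hτ : τ ∈ T) {i j : Fin 3} (hij : i ≠ j)
    {v : Pt} (hi : On (τ i) v) (hj : On (τ j) v) : ∀ l, On (τ l) v := by
  obtain ⟨w, hw⟩ := h.col τ hτ
  have : v = w :=
    line_unique (ts_ne h hij (h.mem τ hτ i) (h.mem τ hτ j)) hi hj (hw i) (hw j)
  rw [this]; exact hw

/-- two points determine a triple -/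
lemma ts_det (h : TS k N P T) {τ τ' : Fin 3 → Pt} (hτ : τ ∈ T) (hτ' : τ' ∈ T) {i j : Fin 3}
    (hij : i ≠ j) (hi : τ i = τ' i) (hj : τ j = τ' j) : τ = τ' := by
  obtain ⟨w, hw⟩ := h.col τ hτ
  exact h.one τ hτ τ' hτ' w hw (ts_line h hτ' hij (hi ▸ hw i) (hj ▸ hw j))

lemma ts_card_le_mul (h : TS k N P T) {S : Finset (Fin 3 → Pt)} (hS : S ⊆ T) {i j : Fin 3}
    (hij : i ≠ j) {A B : Finset Pt} (hA : ∀ τ ∈ S, τ i ∈ A) (hB : ∀ τ ∈ S, τ j ∈ B) :
    S.card ≤ A.card * B.card := by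
  rw [← card_product]
  refine card_le_card_of_injOn (fun τ => (τ i, τ j)) (fun τ hτ => ?_) ?_
  · exact mem_coe.2 (mem_product.2 ⟨hA τ hτ, hB τ hτ⟩)
  · intro τ hτ τ' hτ' e
    exact ts_det h (hS hτ) (hS hτ') hij (congrArg Prod.fst e) (congrArg Prod.snd e)

/-- a point lies in at most `N` triples -/
lemma ts_deg (h : TS k N P T) {S : Finset (Fin 3 → Pt)} (hS : S ⊆ T) (i : Fin 3)
    {A : Finset Pt} (hA : ∀ τ ∈ S, τ i ∈ A) : S.card ≤ A.card * N := by
  have hij : i ≠ i + 1 := by fin_cases i <;> simp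
  exact (ts_card_le_mul h hS hij hA fun τ hτ => h.mem τ (hS hτ) (i + 1)).trans
    (Nat.mul_le_mul_left _ (h.card_le _))

lemma U_inj (h : TS k N P T) : Set.InjOn Prod.fst (U P : Set Pt) := by
  intro p hp q hq e
  obtain ⟨i, hi⟩ := mem_U.1 hp
  obtain ⟨j, hj⟩ := mem_U.1 hq
  exact h.inj i j p hi q hj e

lemma U_few (h : TS k N P T) :
    ∀ v : Pt, ∀ S : Finset Pt, S ⊆ U P → (∀ p ∈ S, On p v) → S.card ≤ k :=
  fun v S hS hv => h.few v S (fun _ hp => mem_U.1 (hS hp)) hv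

lemma ts_mem_U (h : TS k N P T) {τ : Fin 3 → Pt} (hτ : τ ∈ T) (i : Fin 3) : τ i ∈ U P :=
  mem_U.2 ⟨i, h.mem τ hτ i⟩

/-- triples with a point in a small set -/
lemma touch_le (h : TS k N P T) {Y : Finset (Fin 3 → Pt)} (hY : Y ⊆ T) {A B : Finset Pt}
    (hA : ∀ τ ∈ Y, τ 0 ∈ A) (hB : ∀ τ ∈ Y, τ 1 ∈ B) {m : ℕ} (hAm : A.card ≤ m)
    (hBm : B.card ≤ m) (Z : Finset Pt) (hZ : ∀ τ ∈ Y, ∃ i, τ i ∈ Z) :
    Y.card ≤ 3 * Z.card * m := by
  classical
  have hsub : Y ⊆ (Y.filter fun τ => τ 0 ∈ Z) ∪ ((Y.filter fun τ => τ 1 ∈ Z) ∪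
      (Y.filter fun τ => τ 2 ∈ Z)) := by
    intro τ hτ
    obtain ⟨i, hi⟩ := hZ τ hτ
    simp only [mem_union, mem_filter]
    fin_cases i
    · exact Or.inl ⟨hτ, hi⟩
    · exact Or.inr (Or.inl ⟨hτ, hi⟩)
    · exact Or.inr (Or.inr ⟨hτ, hi⟩)
  have h0 : (Y.filter fun τ => τ 0 ∈ Z).card ≤ Z.card * m :=
    (ts_card_le_mul h ((filter_subset _ _).trans hY) (i := 0) (j := 1) (by decide)
      (fun τ hτ => (mem_filter.1 hτ).2) (fun τ hτ => hB τ (mem_filter.1 hτ).1)).trans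
      (Nat.mul_le_mul_left _ hBm)
  have h1 : (Y.filter fun τ => τ 1 ∈ Z).card ≤ Z.card * m :=
    (ts_card_le_mul h ((filter_subset _ _).trans hY) (i := 1) (j := 0) (by decide)
      (fun τ hτ => (mem_filter.1 hτ).2) (fun τ hτ => hA τ (mem_filter.1 hτ).1)).trans
      (Nat.mul_le_mul_left _ hAm)
  have h2 : (Y.filter fun τ => τ 2 ∈ Z).card ≤ Z.card * m :=
    (ts_card_le_mul h ((filter_subset _ _).trans hY) (i := 2) (j := 0) (by decide)
      (fun τ hτ => (mem_filter.1 hτ).2) (fun τ hτ => hA τ (mem_filter.1 hτ).1)).trans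
      (Nat.mul_le_mul_left _ hAm)
  have := (card_le_card hsub).trans ((card_union_le _ _).trans
    (Nat.add_le_add_left (card_union_le _ _) _))
  nlinarith

/-- a reducible cubic covers few triples -/
lemma cov_red (h : TS k N P T) {Y : Finset (Fin 3 → Pt)} (hY : Y ⊆ T) {A B : Finset Pt}
    (hA : ∀ τ ∈ Y, τ 0 ∈ A) (hB : ∀ τ ∈ Y, τ 1 ∈ B) {m : ℕ} (hAm : A.card ≤ m)
    (hBm : B.card ≤ m) (f : Pl) (hf0 : f ≠ 0) (hf : f.totalDegree ≤ 3) (hirr : ¬ Irreducible f) :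
    (cov f Y).card ≤ 9 * (k + 1) * m := by
  classical
  obtain ⟨l, g, rfl, hl, hg⟩ := (irred_or_split f hf0 hf).resolve_left hirr
  have hl0 : l ≠ 0 := left_ne_zero_of_mul hf0
  have hg0 : g ≠ 0 := right_ne_zero_of_mul hf0
  have hz : ∀ e : Pl, e ≠ 0 → e.totalDegree ≤ 1 → (zs (U P) e).card ≤ k + 1 := fun e h0 h1 =>
    card_zero_lin (U P) k (U_inj h) (U_few h) e h0 h1 _ (fun p hp => (mem_zs.1 hp).1)
      fun p hp => (mem_zs.1 hp).2
  have hsub : cov (l * g) Y ⊆ Y := fun τ hτ => (mem_cov.1 hτ).1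
  have key : ∀ Z : Finset Pt, Z.card ≤ 3 * (k + 1) → (∀ τ ∈ cov (l * g) Y, ∃ i, τ i ∈ Z) →
      (cov (l * g) Y).card ≤ 9 * (k + 1) * m := by
    intro Z hZ hc
    have := touch_le h (hsub.trans hY) (fun τ hτ => hA τ (hsub hτ)) (fun τ hτ => hB τ (hsub hτ))
      hAm hBm Z hc
    have h2 : 3 * Z.card * m ≤ 3 * (3 * (k + 1)) * m :=
      Nat.mul_le_mul_right _ (Nat.mul_le_mul_left _ hZ)
    calc _ ≤ 3 * (3 * (k + 1)) * m := this.trans h2
      _ = _ := by ring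
  by_cases hall : ∀ τ ∈ cov (l * g) Y, ∃ i, ev l (τ i) = 0
  · refine key (zs (U P) l) ((hz l hl0 hl).trans (by omega)) fun τ hτ => ?_
    obtain ⟨i, hi⟩ := hall τ hτ
    exact ⟨i, mem_zs.2 ⟨ts_mem_U h (hY (hsub hτ)) i, hi⟩⟩
  · push Not at hall
    obtain ⟨σ, hσ, hσl⟩ := hall
    have hσT : σ ∈ T := hY (hsub hσ)
    obtain ⟨v, hv⟩ := h.col σ hσT
    have hcard : (univ.image σ).card = 3 := by
      rw [card_image_of_injective _ fun i j e => by
        by_contra hij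
        exact ts_ne h hij (h.mem σ hσT i) (h.mem σ hσT j) e]
      simp
    obtain ⟨g', hg', hg'1⟩ := div_line g 1 hg v (univ.image σ) (fun p hp => by
      obtain ⟨i, -, rfl⟩ := mem_image.1 hp
      refine ⟨hv i, ?_⟩
      have := (mem_cov.1 hσ).2 i
      rw [ev_mul] at this
      exact (mul_eq_zero.1 this).resolve_left (hσl i)) (by omega)
    have hg'0 : g' ≠ 0 := by
      rintro rfl
      exact hg0 (by rw [hg', mul_zero])
    refine key (zs (U P) l ∪ (zs (U P) (Lp v) ∪ zs (U P) g')) ?_ fun τ hτ => ⟨0, ?_⟩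
    · have a1 := hz l hl0 hl
      have a2 := hz (Lp v) (Lp_ne_zero v) (totalDegree_Lp_le v)
      have a3 := hz g' hg'0 hg'1
      have a4 := card_union_le (zs (U P) l) (zs (U P) (Lp v) ∪ zs (U P) g')
      have a5 := card_union_le (zs (U P) (Lp v)) (zs (U P) g')
      omega
    · have hU := ts_mem_U h (hY (hsub hτ)) 0
      have e := (mem_cov.1 hτ).2 0
      rw [hg', ev_mul, ev_mul] at e
      simp only [mem_union, mem_zs]
      rcases mul_eq_zero.1 e with e | e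
      · exact Or.inl ⟨hU, e⟩
      · rcases mul_eq_zero.1 e with e | e
        · exact Or.inr (Or.inl ⟨hU, e⟩)
        · exact Or.inr (Or.inr ⟨hU, e⟩)

/-- a cubic covering many triples on few points is irreducible -/
lemma col_of_cub (h : TS k N P T) {Y : Finset (Fin 3 → Pt)} (hY : Y ⊆ T) {A B : Finset Pt}
    (hA : ∀ τ ∈ Y, τ 0 ∈ A) (hB : ∀ τ ∈ Y, τ 1 ∈ B) {m x : ℝ} (hAm : (A.card : ℝ) ≤ m)
    (hBm : (B.card : ℝ) ≤ m) (hx : 9 * (k + 1) * m < x) (hc : Cub x Y) :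
    ∃ S ∈ Col (U P), x ≤ (covS S Y).card := by
  obtain ⟨f, h0, h3, hc⟩ := hc
  by_cases hirr : Irreducible f
  · refine ⟨zs (U P) f, mem_Col.2 ⟨f, hirr, h3, rfl⟩, hc.trans ?_⟩
    exact_mod_cast card_le_card fun τ hτ => mem_covS.2 ⟨(mem_cov.1 hτ).1, fun i =>
      mem_zs.2 ⟨ts_mem_U h (hY (mem_cov.1 hτ).1) i, (mem_cov.1 hτ).2 i⟩⟩
  · exfalso
    have h1 := cov_red h hY hA hB (le_max_left A.card B.card) (le_max_right A.card B.card)
      f h0 h3 hirr
    have h2 : ((cov f Y).card : ℝ) ≤ 9 * (k + 1) * ((max A.card B.card : ℕ) : ℝ) := by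
      exact_mod_cast h1
    have h4 : ((max A.card B.card : ℕ) : ℝ) ≤ m := by
      rw [Nat.cast_max]; exact max_le hAm hBm
    have h5 : (9 : ℝ) * (k + 1) * ((max A.card B.card : ℕ) : ℝ) ≤ 9 * (k + 1) * m :=
      mul_le_mul_of_nonneg_left h4 (by positivity)
    linarith

/-- `S` has many points in `V` -/
def Big (V S : Finset Pt) : Prop := 36 * (V.card : ℝ) ≤ ((S ∩ V).card : ℝ) ^ 2

/-- cubics with many points in `V` are nearly disjoint in `V` -/
lemma big_sum {A : Finset Pt} (hinj : Set.InjOn Prod.fst (A : Set Pt)) (V : Finset Pt)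
    (F : Finset (Finset Pt)) (hF : F ⊆ Col A) (hb : ∀ S ∈ F, Big V S) :
    ∑ S ∈ F, ((S ∩ V).card : ℝ) ≤ 2 * V.card := by
  set I := ∑ S ∈ F, ((S ∩ V).card : ℝ) with hI
  let χ : Finset Pt → Pt → ℝ := fun S x => if x ∈ S then 1 else 0
  have e1 : ∀ S : Finset Pt, ((S ∩ V).card : ℝ) = ∑ x ∈ V, χ S x := by
    intro S
    simp only [χ]
    rw [sum_boole, filter_mem_eq_inter, inter_comm]
  have e2 : I = ∑ x ∈ V, ∑ S ∈ F, χ S x := by
    rw [hI, sum_comm]; exact sum_congr rfl fun S _ => e1 S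
  have e3 : ∑ x ∈ V, (∑ S ∈ F, χ S x) ^ 2 ≤ I + 18 * (F.card : ℝ) ^ 2 := by
    have : ∑ x ∈ V, (∑ S ∈ F, χ S x) ^ 2 = ∑ S ∈ F, ∑ S' ∈ F, ∑ x ∈ V, χ S x * χ S' x := by
      simp only [sq, sum_mul_sum]
      rw [sum_comm]
      exact sum_congr rfl fun S _ => sum_comm
    rw [this, hI]
    have : (18 : ℝ) * (F.card : ℝ) ^ 2 = ∑ _S ∈ F, ∑ _S' ∈ F, (18 : ℝ) := by
      simp [sq]; ring
    rw [this, ← sum_add_distrib]
    apply sum_le_sum
    intro S hS
    have : ((S ∩ V).card : ℝ) = ∑ S' ∈ F, if S = S' then ((S ∩ V).card : ℝ) else 0 := by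
      rw [sum_ite_eq, if_pos hS]
    rw [this, ← sum_add_distrib]
    apply sum_le_sum
    intro S' hS'
    have e : ∑ x ∈ V, χ S x * χ S' x = ((S ∩ S' ∩ V).card : ℝ) := by
      rw [e1]
      apply sum_congr rfl
      intro x _
      simp only [χ, mem_inter]
      by_cases h1 : x ∈ S <;> by_cases h2 : x ∈ S' <;> simp [h1, h2]
    rw [e]
    split_ifs with hc
    · subst hc
      rw [inter_self]
      linarith
    · have h1 : (S ∩ S' ∩ V).card ≤ 18 :=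
        (card_le_card inter_subset_left).trans (col_inter hinj (hF hS) (hF hS') hc)
      rw [zero_add]
      exact_mod_cast h1
  have e4 : I ^ 2 ≤ V.card * ∑ x ∈ V, (∑ S ∈ F, χ S x) ^ 2 := by
    rw [e2]; exact sq_sum_le_card_mul_sum_sq
  have hU : (0 : ℝ) ≤ V.card := Nat.cast_nonneg _
  set t : ℝ := Real.sqrt (36 * V.card) with ht
  have ht0 : 0 ≤ t := Real.sqrt_nonneg _
  have ht2 : t ^ 2 = 36 * V.card := Real.sq_sqrt (by positivity)
  have e5 : (F.card : ℝ) * t ≤ I := by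
    rw [hI, ← nsmul_eq_mul]
    apply card_nsmul_le_sum
    intro S hS
    exact Real.sqrt_le_iff.2 ⟨Nat.cast_nonneg _, hb S hS⟩
  have hI0 : 0 ≤ I := sum_nonneg fun _ _ => Nat.cast_nonneg _
  have e6 : I ^ 2 ≤ V.card * I + 1 / 2 * I ^ 2 := by
    have a1 : ((F.card : ℝ) * t) ^ 2 ≤ I ^ 2 := pow_le_pow_left₀ (by positivity) e5 2
    have a3 := mul_le_mul_of_nonneg_left e3 hU
    rw [mul_pow, ht2] at a1
    nlinarith
  rcases hI0.lt_or_eq with hp | hp
  · have : I * I ≤ I * (2 * V.card) := by nlinarith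
    exact le_of_mul_le_mul_left this hp
  · linarith

/-- the square root bound -/
lemma sqrt_bound (h : TS k N P T) (F : Finset (Finset Pt)) (A B : Finset Pt → Finset Pt)
    {D : Finset (Fin 3 → Pt)} (hD : D ⊆ T) {x : ℝ} (hx : 0 ≤ x)
    (hc : ∀ τ ∈ D, ∃ S ∈ F, (∀ i, τ i ∈ S) ∧ τ 0 ∈ A S ∧ τ 1 ∈ B S)
    (hF : ∀ S ∈ F, ((covS S D).card : ℝ) ≤ x) :
    (D.card : ℝ) ^ 2 ≤ x * (∑ S ∈ F, ((A S).card : ℝ)) * ∑ S ∈ F, ((B S).card : ℝ) := by
  classical
  let E : Finset Pt → Finset (Fin 3 → Pt) := fun S =>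
    (covS S D).filter fun τ => τ 0 ∈ A S ∧ τ 1 ∈ B S
  have h1 : D ⊆ F.biUnion E := by
    intro τ hτ
    obtain ⟨S, hS, a1, a2, a3⟩ := hc τ hτ
    exact mem_biUnion.2 ⟨S, hS, mem_filter.2 ⟨mem_covS.2 ⟨hτ, a1⟩, a2, a3⟩⟩
  have h2 : (D.card : ℝ) ≤ ∑ S ∈ F, ((E S).card : ℝ) := by
    exact_mod_cast (card_le_card h1).trans card_biUnion_le
  have h3 : (∑ S ∈ F, ((E S).card : ℝ)) ^ 2 ≤
      (∑ S ∈ F, x * ((A S).card : ℝ)) * ∑ S ∈ F, ((B S).card : ℝ) := by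
    refine sum_sq_le_sum_mul_sum_of_sq_le_mul F (fun S _ => by positivity)
      (fun S _ => by positivity) fun S hS => ?_
    have a1 : ((E S).card : ℝ) ≤ x :=
      le_trans (by exact_mod_cast card_le_card (filter_subset _ _)) (hF S hS)
    have a2 : ((E S).card : ℝ) ≤ (A S).card * (B S).card := by
      have : (E S).card ≤ (A S).card * (B S).card := ts_card_le_mul h (S := E S)
        (fun τ hτ => hD (mem_covS.1 (mem_filter.1 hτ).1).1) (i := 0) (j := 1) (by decide)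
        (fun τ hτ => (mem_filter.1 hτ).2.1) fun τ hτ => (mem_filter.1 hτ).2.2
      exact_mod_cast this
    calc ((E S).card : ℝ) ^ 2 = (E S).card * (E S).card := sq _
      _ ≤ x * ((A S).card * (B S).card) := mul_le_mul a1 a2 (by positivity) hx
      _ = _ := by ring
  rw [← mul_sum] at h3
  exact (pow_le_pow_left₀ (by positivity) h2 2).trans h3

/-- few triples of `Y` are covered by cubics of intermediate size -/
lemma tile_bound (h : TS k N P T) {Y D : Finset (Fin 3 → Pt)} (hY : Y ⊆ T) (hD : D ⊆ Y)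
    {A B : Finset Pt} (hA : ∀ τ ∈ Y, τ 0 ∈ A) (hB : ∀ τ ∈ Y, τ 1 ∈ B) {m z x : ℝ}
    (hAm : (A.card : ℝ) ≤ m) (hBm : (B.card : ℝ) ≤ m) (hz : 0 ≤ z) (hx : 0 ≤ x)
    (hmz : 36 * m ^ 3 ≤ z ^ 2)
    (hc : ∀ τ ∈ D, ∃ S ∈ Col (U P), (∀ i, τ i ∈ S) ∧ z ≤ (covS S Y).card ∧
      ((covS S Y).card : ℝ) ≤ x) :
    (D.card : ℝ) ^ 2 ≤ 4 * x * m ^ 2 := by
  classical
  have hm : 0 ≤ m := le_trans (Nat.cast_nonneg _) hAm
  let F := (Col (U P)).filter fun S => Big A S ∧ Big B S ∧ ((covS S Y).card : ℝ) ≤ x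
  have hbig : ∀ (S V V' : Finset Pt) (i j : Fin 3), i ≠ j → (∀ τ ∈ Y, τ i ∈ V) →
      (∀ τ ∈ Y, τ j ∈ V') → (V.card : ℝ) ≤ m → (V'.card : ℝ) ≤ m → z ≤ (covS S Y).card →
      Big V S := by
    intro S V V' i j hij hV hV' hVm hV'm hS
    have a1 : ((covS S Y).card : ℝ) ≤ (S ∩ V).card * V'.card := by
      exact_mod_cast ts_card_le_mul h (fun τ hτ => hY (mem_covS.1 hτ).1) hij
        (fun τ hτ => mem_inter.2 ⟨(mem_covS.1 hτ).2 i, hV τ (mem_covS.1 hτ).1⟩)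
        fun τ hτ => hV' τ (mem_covS.1 hτ).1
    have a2 : z ≤ (S ∩ V).card * m :=
      hS.trans (a1.trans (mul_le_mul_of_nonneg_left hV'm (Nat.cast_nonneg _)))
    have a3 : z ^ 2 ≤ ((S ∩ V).card * m) ^ 2 := pow_le_pow_left₀ hz a2 2
    unfold Big
    rcases hm.lt_or_eq with hp | hp
    · have a4 : m ^ 2 * (36 * m) ≤ m ^ 2 * ((S ∩ V).card : ℝ) ^ 2 := by nlinarith
      have a5 := le_of_mul_le_mul_left a4 (by positivity)
      linarith
    · have : (V.card : ℝ) = 0 := le_antisymm (hp ▸ hVm) (Nat.cast_nonneg _)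
      rw [this, mul_zero]; positivity
  have h1 := sqrt_bound h F (fun S => S ∩ A) (fun S => S ∩ B) (hD.trans hY) hx
    (fun τ hτ => by
      obtain ⟨S, hS, a1, a2, a3⟩ := hc τ hτ
      exact ⟨S, mem_filter.2 ⟨hS, hbig S A B 0 1 (by decide) hA hB hAm hBm a2,
        hbig S B A 1 0 (by decide) hB hA hBm hAm a2, a3⟩, a1,
        mem_inter.2 ⟨a1 0, hA τ (hD hτ)⟩, mem_inter.2 ⟨a1 1, hB τ (hD hτ)⟩⟩)
    (fun S hS => le_trans (by exact_mod_cast card_le_card (covS_mono S hD))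
      (mem_filter.1 hS).2.2.2)
  have h2 := big_sum (U_inj h) A F (filter_subset _ _) fun S hS => (mem_filter.1 hS).2.1
  have h3 := big_sum (U_inj h) B F (filter_subset _ _) fun S hS => (mem_filter.1 hS).2.2.1
  have h4 : x * (∑ S ∈ F, ((S ∩ A).card : ℝ)) * ∑ S ∈ F, ((S ∩ B).card : ℝ)
      ≤ x * (2 * m) * (2 * m) :=
    mul_le_mul (mul_le_mul_of_nonneg_left (by linarith) hx) (by linarith)
      (sum_nonneg fun _ _ => Nat.cast_nonneg _) (by positivity)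
  calc _ ≤ x * (2 * m) * (2 * m) := h1.trans h4
    _ = _ := by ring

/-- comparing the number of values of two maps -/
lemma card_image_le_of_imp {α β γ : Type*} [DecidableEq β] [DecidableEq γ] (s : Finset α)
    (f : α → β) (g : α → γ) (h : ∀ a ∈ s, ∀ b ∈ s, g a = g b → f a = f b) :
    (s.image f).card ≤ (s.image g).card := by
  classical
  rcases s.eq_empty_or_nonempty with rfl | ⟨a0, -⟩
  · simp
  let c : γ → α := fun y => if hy : ∃ a ∈ s, g a = y then hy.choose else a0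
  have hsub : s.image f ⊆ (s.image g).image fun y => f (c y) := by
    intro b hb
    obtain ⟨a, ha, rfl⟩ := mem_image.1 hb
    refine mem_image.2 ⟨g a, mem_image_of_mem g ha, ?_⟩
    have hy : ∃ a' ∈ s, g a' = g a := ⟨a, ha, rfl⟩
    have : c (g a) = hy.choose := dif_pos hy
    rw [this]
    exact h _ hy.choose_spec.1 a ha hy.choose_spec.2
  exact (card_le_card hsub).trans card_image_le

open Classical in
/-- fibre of `f` over `y` in `A` -/
noncomputable def fib {W : Type} (A : Finset Pt) (f : Pt → W) (y : W) : Finset Pt :=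
  A.filter fun p => f p = y

lemma mem_fib {W : Type} {A : Finset Pt} {f : Pt → W} {y : W} {p : Pt} :
    p ∈ fib A f y ↔ p ∈ A ∧ f p = y := by
  classical
  unfold fib; rw [mem_filter]

open Classical in
/-- the triples over `x` -/
noncomputable def fibT {W : Type} (T : Finset (Fin 3 → Pt)) (π : Fin 3 → Pt → W)
    (x : Fin 3 → W) : Finset (Fin 3 → Pt) :=
  T.filter fun τ => ∀ i, π i (τ i) = x i

lemma mem_fibT {W : Type} {T : Finset (Fin 3 → Pt)} {π : Fin 3 → Pt → W} {x : Fin 3 → W}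
    {τ : Fin 3 → Pt} : τ ∈ fibT T π x ↔ τ ∈ T ∧ ∀ i, π i (τ i) = x i := by
  classical
  unfold fibT; rw [mem_filter]

/-- the triples with label `y` -/
noncomputable def tile (T : Finset (Fin 3 → Pt)) (q : (Fin 3 → Pt) → Z2) (y : Z2) :
    Finset (Fin 3 → Pt) :=
  T.filter fun τ => q τ = y

lemma mem_tile {T : Finset (Fin 3 → Pt)} {q : (Fin 3 → Pt) → Z2} {y : Z2} {τ : Fin 3 → Pt} :
    τ ∈ tile T q y ↔ τ ∈ T ∧ q τ = y := by
  unfold tile; rw [mem_filter]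

/-- the labels of the triples through the point `p` of family `i` -/
noncomputable def met (T : Finset (Fin 3 → Pt)) (q : (Fin 3 → Pt) → Z2) (i : Fin 3) (p : Pt) :
    Finset Z2 :=
  (T.filter fun τ => τ i = p).image q

lemma mem_met {T : Finset (Fin 3 → Pt)} {q : (Fin 3 → Pt) → Z2} {i : Fin 3} {p : Pt} {y : Z2} :
    y ∈ met T q i p ↔ ∃ τ ∈ T, τ i = p ∧ q τ = y := by
  simp only [met, mem_image, mem_filter, and_assoc]

open Classical in
/-- the triples covered by an irreducible cubic that covers at least `z` triples of their tile -/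
noncomputable def CovT (P : Fin 3 → Finset Pt) (T : Finset (Fin 3 → Pt))
    (q : (Fin 3 → Pt) → Z2) (z : ℝ) : Finset (Fin 3 → Pt) :=
  T.filter fun τ => ∃ S ∈ Col (U P), (∀ i, τ i ∈ S) ∧ z ≤ (covS S (tile T q (q τ))).card

lemma mem_CovT {P : Fin 3 → Finset Pt} {T : Finset (Fin 3 → Pt)} {q : (Fin 3 → Pt) → Z2} {z : ℝ}
    {τ : Fin 3 → Pt} : τ ∈ CovT P T q z ↔ τ ∈ T ∧
      ∃ S ∈ Col (U P), (∀ i, τ i ∈ S) ∧ z ≤ (covS S (tile T q (q τ))).card := by
  classical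
  unfold CovT; rw [mem_filter]

open Classical in
/-- the labels whose tile has a cubic covering `x` triples -/
noncomputable def good (T : Finset (Fin 3 → Pt)) (q : (Fin 3 → Pt) → Z2) (x : ℝ) : Finset Z2 :=
  (T.image q).filter fun y => Cub x (tile T q y)

lemma mem_good {T : Finset (Fin 3 → Pt)} {q : (Fin 3 → Pt) → Z2} {x : ℝ} {y : Z2} :
    y ∈ good T q x ↔ y ∈ T.image q ∧ Cub x (tile T q y) := by
  classical
  unfold good; rw [mem_filter]

/-- the index of the tile of side `v` (offset `o`) that contains the cell `w` -/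
def qt (o : Z2) (v : ℕ) (w : Z2) : Z2 := ((w.1 + o.1) / v, (w.2 + o.2) / v)

end ECub.B
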