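import Pool.Agent.P.MP_029dcd_co.F.B.Basic

/-! Layer B: cubics in large fibres glue to one cubic. -/

set_option autoImplicit false

namespace ECub.B

open CubicStab Finset

lemma dense_count {α β : Type*} [DecidableEq β] (D D' : Finset α) (g : α → β) (η : ℝ)
    (hl : ∀ a ∈ D, η * ((D.filter fun b => g b = g a).card : ℝ) ≤
      ((D'.filter fun b => g b = g a).card : ℝ)) :
    η * (D.card : ℝ) ≤ D'.card := by
  have e1 : (D.card : ℝ) = ∑ y ∈ D.image g, ((D.filter fun b => g b = y).card : ℝ) := by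
    exact_mod_cast card_eq_sum_card_image g D
  have e2 : ∑ y ∈ D.image g, ((D'.filter fun b => g b = y).card : ℝ) ≤ D'.card := by
    have a1 : ∑ y ∈ D.image g, (D'.filter fun b => g b = y).card ≤ D'.card := by
      rw [sum_card_fiberwise_eq_card_filter]
      exact card_le_card (filter_subset _ _)
    exact_mod_cast a1
  rw [e1, mul_sum]
  refine le_trans (sum_le_sum fun y hy => ?_) e2
  obtain ⟨a, ha, rfl⟩ := mem_image.1 hy
  exact hl a ha

open Classical in
/-- the points of `A` on `S` whose fibre is big on `S` -/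
noncomputable def dense_set {W : Type} (A : Finset Pt) (f : Pt → W) (S : Finset Pt) : Finset Pt :=
  A.filter fun p => p ∈ S ∧ Big (fib A f (f p)) S

lemma dense_mem {W : Type} {A : Finset Pt} {f : Pt → W} {S : Finset Pt} {p : Pt} :
    p ∈ dense_set A f S ↔ p ∈ A ∧ p ∈ S ∧ Big (fib A f (f p)) S := by
  classical
  unfold dense_set; rw [mem_filter]

lemma dense_sum {W : Type} {V : Finset Pt} (hinj : Set.InjOn Prod.fst (V : Set Pt))
    (A : Finset Pt) (f : Pt → W) :
    ∑ S ∈ Col V, ((dense_set A f S).card : ℝ) ≤ 2 * A.card := by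
  classical
  have e1 : ∀ S : Finset Pt, ((dense_set A f S).card : ℝ) ≤
      ∑ y ∈ A.image f, if Big (fib A f y) S then ((S ∩ fib A f y).card : ℝ) else 0 := by
    intro S
    have a1 : (dense_set A f S).card =
        ∑ y ∈ A.image f, ((dense_set A f S).filter fun p => f p = y).card :=
      card_eq_sum_card_fiberwise fun p hp =>
        mem_coe.2 (mem_image_of_mem f (dense_mem.1 (mem_coe.1 hp)).1)
    rw [a1, Nat.cast_sum]
    refine sum_le_sum fun y _ => ?_
    split_ifs with hb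
    · have : ((dense_set A f S).filter fun p => f p = y) ⊆ S ∩ fib A f y := by
        intro p hp
        obtain ⟨h1, h2⟩ := mem_filter.1 hp
        exact mem_inter.2 ⟨(dense_mem.1 h1).2.1, mem_fib.2 ⟨(dense_mem.1 h1).1, h2⟩⟩
      exact_mod_cast card_le_card this
    · have : ((dense_set A f S).filter fun p => f p = y) = ∅ := by
        refine eq_empty_of_forall_notMem fun p hp => hb ?_
        obtain ⟨h1, h2⟩ := mem_filter.1 hp
        rw [← h2]
        exact (dense_mem.1 h1).2.2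
      rw [this]; simp
  have e2 : (A.card : ℝ) = ∑ y ∈ A.image f, ((fib A f y).card : ℝ) := by
    have a1 : A.card = ∑ y ∈ A.image f, (A.filter fun p => f p = y).card :=
      card_eq_sum_card_image f A
    rw [a1, Nat.cast_sum]
    refine sum_congr rfl fun y _ => ?_
    have : (A.filter fun p => f p = y) = fib A f y := by
      ext p; rw [mem_filter, mem_fib]
    rw [this]
  refine le_trans (sum_le_sum fun S _ => e1 S) ?_
  rw [sum_comm, e2, mul_sum]
  refine sum_le_sum fun y _ => ?_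
  rw [← sum_filter]
  exact big_sum hinj (fib A f y) _ (filter_subset _ _) fun S hS => (mem_filter.1 hS).2

lemma dense_big {V S : Finset Pt} {η n : ℝ} (hη : 0 < η) (hn : 0 < n) (hV : (V.card : ℝ) ≤ n)
    (h36 : 36 ≤ η ^ 2 * n) (hc : η * n ^ 2 ≤ (S ∩ V).card * n) : Big V S := by
  unfold Big
  have a1 : η * n ≤ (S ∩ V).card := by
    have : η * n * n ≤ (S ∩ V).card * n := by nlinarith
    exact le_of_mul_le_mul_right this hn
  have a2 : (η * n) ^ 2 ≤ ((S ∩ V).card : ℝ) ^ 2 := pow_le_pow_left₀ (by positivity) a1 2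
  have a3 : 36 * n ≤ η ^ 2 * n * n := mul_le_mul_of_nonneg_right h36 hn.le
  nlinarith

theorem dense_cub {k N : ℕ} {P : Fin 3 → Finset Pt} {T : Finset (Fin 3 → Pt)} (h : TS k N P T)
    (hN : 0 < N) {W : Type} (π : Fin 3 → Pt → W) (η c : ℝ) (hη : 0 < η) (hc : 0 < c)
    {D : Finset (Fin 3 → Pt)} (hD : D ⊆ T) (hcD : c * (N : ℝ) ^ 2 ≤ D.card)
    (hx : ∀ τ ∈ D, ∃ n : ℕ, (∀ i, (fib (P i) (π i) (π i (τ i))).card ≤ n) ∧
      9 * ((k : ℝ) + 1) < η * n ∧ 36 ≤ η ^ 2 * n ∧
      Cub (η * (n : ℝ) ^ 2) (fibT T π fun i => π i (τ i))) :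
    Cub ((η * c) ^ 2 / 8 * (N : ℝ) ^ 2) T := by
  classical
  let g : (Fin 3 → Pt) → (Fin 3 → W) := fun τ i => π i (τ i)
  let D' : Finset (Fin 3 → Pt) := T.filter fun τ => ∃ S ∈ Col (U P), (∀ i, τ i ∈ S) ∧
    τ 0 ∈ dense_set (P 0) (π 0) S ∧ τ 1 ∈ dense_set (P 1) (π 1) S
  have hcount : η * (D.card : ℝ) ≤ D'.card := by
    refine dense_count D D' g η fun τ hτ => ?_
    obtain ⟨n, hn, h9, h36, hcub⟩ := hx τ hτ
    have hY : fibT T π (g τ) ⊆ T := fun σ hσ => (mem_fibT.1 hσ).1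
    have hA : ∀ i, ∀ σ ∈ fibT T π (g τ), σ i ∈ fib (P i) (π i) (π i (τ i)) := fun i σ hσ =>
      mem_fib.2 ⟨h.mem σ (hY hσ) i, (mem_fibT.1 hσ).2 i⟩
    have hnR : ∀ i, ((fib (P i) (π i) (π i (τ i))).card : ℝ) ≤ n := fun i => by
      exact_mod_cast hn i
    have hn0 : (0 : ℝ) < n := by
      have a1 : (0 : ℝ) < η * n := lt_of_le_of_lt (by positivity) h9
      exact (mul_pos_iff_of_pos_left hη).1 a1
    have hlt : 9 * ((k : ℝ) + 1) * n < η * (n : ℝ) ^ 2 := by
      have := mul_lt_mul_of_pos_right h9 hn0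
      nlinarith
    obtain ⟨S, hS, hcov⟩ := col_of_cub h hY (hA 0) (hA 1) (hnR 0) (hnR 1) hlt hcub
    have hbig : ∀ i j : Fin 3, i ≠ j → Big (fib (P i) (π i) (π i (τ i))) S := by
      intro i j hij
      refine dense_big hη hn0 (hnR i) h36 (hcov.trans ?_)
      have a1 : (covS S (fibT T π (g τ))).card ≤
          (S ∩ fib (P i) (π i) (π i (τ i))).card * (fib (P j) (π j) (π j (τ j))).card :=
        ts_card_le_mul h (fun σ hσ => hY (mem_covS.1 hσ).1) hij
          (fun σ hσ => mem_inter.2 ⟨(mem_covS.1 hσ).2 i, hA i σ (mem_covS.1 hσ).1⟩)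
          fun σ hσ => hA j σ (mem_covS.1 hσ).1
      have a2 : ((covS S (fibT T π (g τ))).card : ℝ) ≤
          (S ∩ fib (P i) (π i) (π i (τ i))).card * (fib (P j) (π j) (π j (τ j))).card := by
        exact_mod_cast a1
      exact a2.trans (mul_le_mul_of_nonneg_left (hnR j) (Nat.cast_nonneg _))
    have b1 : ((D.filter fun b => g b = g τ).card : ℝ) ≤ (n : ℝ) ^ 2 := by
      have hsub : (D.filter fun b => g b = g τ) ⊆ fibT T π (g τ) := fun σ hσ =>
        mem_fibT.2 ⟨hD (mem_filter.1 hσ).1, fun i => congrFun (mem_filter.1 hσ).2 i⟩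
      have a1 : (fibT T π (g τ)).card ≤ n * n :=
        (ts_card_le_mul h hY (i := 0) (j := 1) (by decide) (hA 0) (hA 1)).trans
          (Nat.mul_le_mul (hn 0) (hn 1))
      have a2 : (D.filter fun b => g b = g τ).card ≤ n * n := (card_le_card hsub).trans a1
      rw [sq]
      exact_mod_cast a2
    have b2 : ((covS S (fibT T π (g τ))).card : ℝ) ≤ (D'.filter fun b => g b = g τ).card := by
      have hsub : covS S (fibT T π (g τ)) ⊆ D'.filter fun b => g b = g τ := by
        intro σ hσ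
        obtain ⟨c1, c2⟩ := mem_covS.1 hσ
        have c3 : ∀ i, π i (σ i) = π i (τ i) := (mem_fibT.1 c1).2
        refine mem_filter.2 ⟨mem_filter.2 ⟨hY c1, S, hS, c2, ?_, ?_⟩, funext c3⟩
        · refine dense_mem.2 ⟨h.mem σ (hY c1) 0, c2 0, ?_⟩
          rw [c3 0]
          exact hbig 0 1 (by decide)
        · refine dense_mem.2 ⟨h.mem σ (hY c1) 1, c2 1, ?_⟩
          rw [c3 1]
          exact hbig 1 0 (by decide)
      exact_mod_cast card_le_card hsub
    exact (mul_le_mul_of_nonneg_left b1 hη.le).trans (hcov.trans b2)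
  by_contra hno
  have hF : ∀ S ∈ Col (U P), ((covS S D').card : ℝ) ≤ (η * c) ^ 2 / 8 * (N : ℝ) ^ 2 := by
    intro S hS
    by_contra hlt
    apply hno
    refine cub_of_col hS ((not_le.1 hlt).le.trans ?_)
    exact_mod_cast card_le_card (covS_mono S (filter_subset _ _))
  have hs := sqrt_bound h (Col (U P)) (dense_set (P 0) (π 0)) (dense_set (P 1) (π 1))
    (D := D') (filter_subset _ _) (x := (η * c) ^ 2 / 8 * (N : ℝ) ^ 2) (by positivity)
    (fun τ hτ => (mem_filter.1 hτ).2) hF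
  have hP : ∀ i, ∑ S ∈ Col (U P), ((dense_set (P i) (π i) S).card : ℝ) ≤ 2 * N := fun i => by
    have a1 : ((P i).card : ℝ) ≤ N := by exact_mod_cast h.card_le i
    have a2 := dense_sum (U_inj h) (P i) (π i)
    linarith
  have hNR : (0 : ℝ) < N := by exact_mod_cast hN
  have h4 : (η * c) ^ 2 / 8 * (N : ℝ) ^ 2 * (∑ S ∈ Col (U P), ((dense_set (P 0) (π 0) S).card : ℝ))
      * ∑ S ∈ Col (U P), ((dense_set (P 1) (π 1) S).card : ℝ)
      ≤ (η * c) ^ 2 / 8 * (N : ℝ) ^ 2 * (2 * N) * (2 * N) :=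
    mul_le_mul (mul_le_mul_of_nonneg_left (hP 0) (by positivity)) (hP 1)
      (sum_nonneg fun _ _ => Nat.cast_nonneg _) (by positivity)
  have h5 : η * (c * (N : ℝ) ^ 2) ≤ D'.card :=
    (mul_le_mul_of_nonneg_left hcD hη.le).trans hcount
  have h6 : (η * (c * (N : ℝ) ^ 2)) ^ 2 ≤ (D'.card : ℝ) ^ 2 :=
    pow_le_pow_left₀ (by positivity) h5 2
  have h7 : 0 < (η * (c * (N : ℝ) ^ 2)) ^ 2 := by positivity
  have h8 : (η * c) ^ 2 / 8 * (N : ℝ) ^ 2 * (2 * N) * (2 * N)
      = (η * (c * (N : ℝ) ^ 2)) ^ 2 / 2 := by ring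
  linarith

end ECub.B
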