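import Pool.Agent.P.MP_029dcd_co.F.B.Basic

/-! Layer B: square tilings of the set of cells. -/

set_option autoImplicit false

namespace ECub.B

open CubicStab Finset

theorem tiles_div_iff {v : ℤ} (hv : 0 < v) (a y : ℤ) :
    a / v = y ↔ y * v ≤ a ∧ a < y * v + v := by
  have h1 := Int.le_ediv_iff_mul_le (a := y) (b := a) hv
  have h2 := Int.ediv_lt_iff_lt_mul (a := a) (b := y + 1) hv
  rw [add_mul, one_mul] at h2
  constructor
  · intro h
    exact ⟨h1.1 h.ge, h2.1 (by omega)⟩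
  · rintro ⟨h3, h4⟩
    have := h1.2 h3
    have := h2.2 h4
    omega

theorem tiles_far {v : ℤ} (hv : 0 < v) (o a b : ℤ) (hne : (a + o) / v ≠ (b + o) / v)
    (hpar : (a + o) / v % 2 = (b + o) / v % 2) : v ≤ |a - b| := by
  obtain ⟨h1, h2⟩ := (tiles_div_iff hv (a + o) _).1 rfl
  obtain ⟨h3, h4⟩ := (tiles_div_iff hv (b + o) _).1 rfl
  generalize (a + o) / v = x at *
  generalize (b + o) / v = y at *
  rcases lt_or_gt_of_ne hne with h | h
  · have h5 : (x + 2) * v ≤ y * v := mul_le_mul_of_nonneg_right (by omega) hv.le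
    exact le_abs.2 (Or.inr (by nlinarith))
  · have h5 : (y + 2) * v ≤ x * v := mul_le_mul_of_nonneg_right (by omega) hv.le
    exact le_abs.2 (Or.inl (by nlinarith))

theorem qt_ref (o : Z2) (v : ℕ) (w w' : Z2) (h : qt o v w = qt o v w') :
    qt o (2 * v) w = qt o (2 * v) w' := by
  have key : ∀ a : ℤ, a / ((2 * v : ℕ) : ℤ) = a / v / 2 := fun a => by
    rw [Int.ediv_ediv_of_nonneg (Int.natCast_nonneg v)]
    push_cast
    rw [mul_comm]
  simp only [qt, Prod.mk.injEq] at h ⊢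
  rw [key, key, key, key, h.1, h.2]
  exact ⟨rfl, rfl⟩

theorem tiles_geo (N : ℕ) (T : Finset (Fin 3 → Pt)) (cell : (Fin 3 → Pt) → Z2)
    (hinj : ∀ τ ∈ T, ∀ τ' ∈ T, cell τ = cell τ' → τ = τ')
    (hin : ∀ τ ∈ T, cell τ ∈ Ico (0 : ℤ) N ×ˢ Ico (0 : ℤ) N)
    (hsep : ∀ i : Fin 3, i ≠ 2 → ∀ (p : Pt) (n : ℕ) (S : Finset (Fin 3 → Pt)), S ⊆ T →
      (∀ τ ∈ S, τ i = p) → (∀ τ ∈ S, ∀ τ' ∈ S, τ ≠ τ' →
        (n : ℤ) ≤ max |(cell τ).1 - (cell τ').1| |(cell τ).2 - (cell τ').2|) →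
      (S.card - 1) * n ≤ 2 * N)
    (o : Z2) (ho : 0 ≤ o.1 ∧ o.1 ≤ 3 * N ∧ 0 ≤ o.2 ∧ o.2 ≤ 3 * N) (v : ℕ) (hv : 0 < v)
    (hv3 : v ≤ 3 * N) :
    (∀ y, (tile T (fun τ => qt o v (cell τ)) y).card ≤ v ^ 2) ∧
      (T.image fun τ => qt o v (cell τ)).card * v ^ 2 ≤ 49 * N ^ 2 ∧
      ∀ i : Fin 3, i ≠ 2 → ∀ p, (met T (fun τ => qt o v (cell τ)) i p).card * v ≤ 20 * N := by
  classical
  have hv' : (0 : ℤ) < v := by exact_mod_cast hv
  refine ⟨fun y => ?_, ?_, fun i hi p => ?_⟩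
  · have h := Finset.card_le_card_of_injOn (s := tile T (fun τ => qt o v (cell τ)) y)
      (t := Ico (y.1 * v - o.1) (y.1 * v - o.1 + v) ×ˢ Ico (y.2 * v - o.2) (y.2 * v - o.2 + v))
      cell (fun τ hτ => by
        obtain ⟨-, h2⟩ := mem_tile.1 (Finset.mem_coe.1 hτ)
        have h3 := (tiles_div_iff hv' _ _).1 (congrArg Prod.fst h2)
        have h4 := (tiles_div_iff hv' _ _).1 (congrArg Prod.snd h2)
        rw [Finset.mem_coe, mem_product, mem_Ico, mem_Ico]
        omega)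
      (fun τ hτ τ' hτ' h => hinj τ (mem_tile.1 (Finset.mem_coe.1 hτ)).1 τ'
        (mem_tile.1 (Finset.mem_coe.1 hτ')).1 h)
    simpa [pow_two] using h
  · have h : (T.image fun τ => qt o v (cell τ)) ⊆
        Icc (0 : ℤ) ((4 * N / v : ℕ) : ℤ) ×ˢ Icc (0 : ℤ) ((4 * N / v : ℕ) : ℤ) := by
      intro y hy
      obtain ⟨τ, hτ, rfl⟩ := mem_image.1 hy
      have h1 := hin τ hτ
      rw [mem_product, mem_Ico, mem_Ico] at h1
      rw [mem_product, mem_Icc, mem_Icc]
      push_cast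
      exact ⟨⟨Int.ediv_nonneg (by omega) hv'.le, Int.ediv_le_ediv hv' (by omega)⟩,
        Int.ediv_nonneg (by omega) hv'.le, Int.ediv_le_ediv hv' (by omega)⟩
    have h1 := card_le_card h
    rw [card_product, Int.card_Icc] at h1
    have h2 : (((4 * N / v : ℕ) : ℤ) + 1 - 0).toNat = 4 * N / v + 1 := by
      generalize 4 * N / v = m
      omega
    rw [h2] at h1
    have h3 : (4 * N / v + 1) * v ≤ 7 * N := by
      have := Nat.div_mul_le_self (4 * N) v
      rw [add_mul]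
      omega
    calc _ ≤ (4 * N / v + 1) * (4 * N / v + 1) * v ^ 2 := Nat.mul_le_mul_right _ h1
      _ = ((4 * N / v + 1) * v) ^ 2 := by ring
      _ ≤ (7 * N) ^ 2 := Nat.pow_le_pow_left h3 2
      _ = 49 * N ^ 2 := by ring
  · set M := met T (fun τ => qt o v (cell τ)) i p with hM
    have hch : ∀ y : Z2, ∃ τ : Fin 3 → Pt, y ∈ M → τ ∈ T ∧ τ i = p ∧ qt o v (cell τ) = y := by
      intro y
      by_cases hy : y ∈ M
      · obtain ⟨τ, h1, h2, h3⟩ := mem_met.1 hy
        exact ⟨τ, fun _ => ⟨h1, h2, h3⟩⟩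
      · exact ⟨fun _ => p, fun h => absurd h hy⟩
    choose s hs using hch
    have hcl : ∀ c : Z2, (M.filter fun y => (y.1 % 2, y.2 % 2) = c).card * v ≤ 5 * N := by
      intro c
      set C := M.filter fun y => (y.1 % 2, y.2 % 2) = c with hC
      have hCM : ∀ y ∈ C, y ∈ M := fun y hy => (mem_filter.1 hy).1
      have hcard : (C.image s).card = C.card := card_image_of_injOn fun y hy y' hy' h => by
        rw [← (hs y (hCM y hy)).2.2, ← (hs y' (hCM y' hy')).2.2, h]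
      have h := hsep i hi p v (C.image s) (fun τ hτ => by
          obtain ⟨y, hy, rfl⟩ := mem_image.1 hτ
          exact (hs y (hCM y hy)).1) (fun τ hτ => by
          obtain ⟨y, hy, rfl⟩ := mem_image.1 hτ
          exact (hs y (hCM y hy)).2.1) (fun τ hτ τ' hτ' hne => by
          obtain ⟨y, hy, rfl⟩ := mem_image.1 hτ
          obtain ⟨y', hy', rfl⟩ := mem_image.1 hτ'
          have e1 := (hs y (hCM y hy)).2.2
          have e2 := (hs y' (hCM y' hy')).2.2
          have e3 := (mem_filter.1 hy).2.trans (mem_filter.1 hy').2.symm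
          have a1 : ((cell (s y)).1 + o.1) / v = y.1 := congrArg Prod.fst e1
          have a2 : ((cell (s y)).2 + o.2) / v = y.2 := congrArg Prod.snd e1
          have b1 : ((cell (s y')).1 + o.1) / v = y'.1 := congrArg Prod.fst e2
          have b2 : ((cell (s y')).2 + o.2) / v = y'.2 := congrArg Prod.snd e2
          have c1 : y.1 % 2 = y'.1 % 2 := congrArg Prod.fst e3
          have c2 : y.2 % 2 = y'.2 % 2 := congrArg Prod.snd e3
          by_cases h1 : y.1 = y'.1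
          · have h2 : y.2 ≠ y'.2 := fun h2 => hne (by rw [Prod.ext h1 h2])
            exact le_max_of_le_right (tiles_far hv' o.2 _ _ (by rw [a2, b2]; exact h2)
              (by rw [a2, b2]; exact c2))
          · exact le_max_of_le_left (tiles_far hv' o.1 _ _ (by rw [a1, b1]; exact h1)
              (by rw [a1, b1]; exact c1)))
      rw [hcard] at h
      rcases Nat.eq_zero_or_pos C.card with h0 | h0
      · rw [h0]; omega
      · obtain ⟨m, hm⟩ : ∃ m, C.card = m + 1 := ⟨C.card - 1, by omega⟩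
        rw [hm] at h ⊢
        rw [Nat.add_sub_cancel] at h
        rw [add_mul]
        omega
    have h1 := card_eq_sum_card_fiberwise (s := M) (t := Ico (0 : ℤ) 2 ×ˢ Ico (0 : ℤ) 2)
      (f := fun y : Z2 => (y.1 % 2, y.2 % 2)) fun y _ => by
        rw [Finset.mem_coe, mem_product, mem_Ico, mem_Ico]
        dsimp only
        omega
    rw [h1, sum_mul]
    refine (sum_le_card_nsmul _ _ (5 * N) fun c _ => hcl c).trans ?_
    rw [card_product, Int.card_Ico, smul_eq_mul]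
    have : ((2 : ℤ) - 0).toNat = 2 := rfl
    rw [this]
    omega

theorem tiles_offset (u : ℕ) (G : Finset Z2) :
    ∃ o : Z2, (0 ≤ o.1 ∧ o.1 ≤ 2 * u ∧ 0 ≤ o.2 ∧ o.2 ≤ 2 * u) ∧ ∃ G' : Finset Z2, G' ⊆ G ∧
      G.card ≤ (2 * u + 1) ^ 2 * G'.card ∧ ∃ t : Z2 → Z2, Set.InjOn t (G' : Set Z2) ∧
        ∀ y ∈ G', ∀ w, w ∈ box y u ↔ qt o (2 * u + 1) w = t y := by
  classical
  have hv : (0 : ℤ) < 2 * u + 1 := by omega
  let off : Z2 → Z2 := fun y => ((u - y.1) % (2 * u + 1), (u - y.2) % (2 * u + 1))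
  have hoff : ∀ y, off y ∈ Ico (0 : ℤ) (2 * u + 1) ×ˢ Ico (0 : ℤ) (2 * u + 1) := fun y => by
    rw [mem_product, mem_Ico, mem_Ico]
    exact ⟨⟨Int.emod_nonneg _ hv.ne', Int.emod_lt_of_pos _ hv⟩,
      Int.emod_nonneg _ hv.ne', Int.emod_lt_of_pos _ hv⟩
  obtain ⟨o, ho, hmax⟩ := exists_max_image (Ico (0 : ℤ) (2 * u + 1) ×ˢ Ico (0 : ℤ) (2 * u + 1))
    (fun c => (G.filter fun y => off y = c).card) ⟨_, hoff 0⟩
  have key : ∀ a c : ℤ, (u - a) % (2 * u + 1) = c →
      (a - u + c) / (2 * u + 1) * (2 * u + 1) = a - u + c := by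
    intro a c h
    refine Int.ediv_mul_cancel ?_
    have h1 := Int.emod_add_mul_ediv (u - a) (2 * u + 1)
    rw [h] at h1
    exact ⟨-((u - a) / (2 * u + 1)), by linarith⟩
  refine ⟨o, ?_, G.filter fun y => off y = o, filter_subset _ _, ?_,
    fun y => ((y.1 - u + o.1) / (2 * u + 1), (y.2 - u + o.2) / (2 * u + 1)), ?_, ?_⟩
  · rw [mem_product, mem_Ico, mem_Ico] at ho
    omega
  · rw [card_eq_sum_card_fiberwise (s := G) (f := off) fun y _ => Finset.mem_coe.2 (hoff y)]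
    refine (sum_le_card_nsmul _ _ _ hmax).trans ?_
    rw [card_product, Int.card_Ico, smul_eq_mul]
    have : ((2 : ℤ) * u + 1 - 0).toNat = 2 * u + 1 := by omega
    rw [this, pow_two]
  · intro y hy y' hy' h
    have e1 := (mem_filter.1 (Finset.mem_coe.1 hy)).2
    have e2 := (mem_filter.1 (Finset.mem_coe.1 hy')).2
    have a1 := key y.1 o.1 (congrArg Prod.fst e1)
    have a2 := key y.2 o.2 (congrArg Prod.snd e1)
    have b1 := key y'.1 o.1 (congrArg Prod.fst e2)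
    have b2 := key y'.2 o.2 (congrArg Prod.snd e2)
    have c1 : (y.1 - u + o.1) / (2 * u + 1) = (y'.1 - u + o.1) / (2 * u + 1) := congrArg Prod.fst h
    have c2 : (y.2 - u + o.2) / (2 * u + 1) = (y'.2 - u + o.2) / (2 * u + 1) := congrArg Prod.snd h
    rw [c1, b1] at a1
    rw [c2, b2] at a2
    exact Prod.ext (by omega) (by omega)
  · intro y hy w
    have e1 := (mem_filter.1 hy).2
    have a1 := key y.1 o.1 (congrArg Prod.fst e1)
    have a2 := key y.2 o.2 (congrArg Prod.snd e1)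
    simp only [qt, Prod.mk.injEq, box, mem_product, mem_Icc]
    push_cast
    rw [tiles_div_iff hv, tiles_div_iff hv, a1, a2]
    omega

end ECub.B
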