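import Pool.Agent.P.MP_029dcd_co.F.B.GlueAbs
import Pool.Agent.P.MP_029dcd_co.F.B.Tiles

/-! Layer B: multi-scale gluing of local cubics. -/

set_option autoImplicit false

namespace ECub.B

open CubicStab Finset

open Classical in
theorem glue' (k : ℕ) (γ η : ℝ) (hγ : 0 < γ) (hη : 0 < η) :
    ∃ η' : ℝ, 0 < η' ∧ ∃ u0 : ℕ, ∀ u N : ℕ, u0 ≤ u → u ≤ N →
      ∀ (P : Fin 3 → Finset Pt) (T : Finset (Fin 3 → Pt)), TS k N P T →
      ∀ cell : (Fin 3 → Pt) → Z2, (∀ τ ∈ T, ∀ τ' ∈ T, cell τ = cell τ' → τ = τ') →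
      (∀ τ ∈ T, cell τ ∈ Ico (0 : ℤ) N ×ˢ Ico (0 : ℤ) N) →
      (∀ i : Fin 3, i ≠ 2 → ∀ (p : Pt) (n : ℕ) (S : Finset (Fin 3 → Pt)), S ⊆ T →
        (∀ τ ∈ S, τ i = p) → (∀ τ ∈ S, ∀ τ' ∈ S, τ ≠ τ' →
          (n : ℤ) ≤ max |(cell τ).1 - (cell τ').1| |(cell τ).2 - (cell τ').2|) →
        (S.card - 1) * n ≤ 2 * N) →
      γ * (N : ℝ) ^ 2 ≤ ((Ico (0 : ℤ) N ×ˢ Ico (0 : ℤ) N).filter fun y : Z2 =>
        Cub (η * (u : ℝ) ^ 2) (T.filter fun τ => cell τ ∈ box y u)).card →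
      Cub (η' * (N : ℝ) ^ 2) T := by
  obtain ⟨η', hη', v0, habs⟩ := glue_abs k γ (η / 9) hγ (by positivity)
  refine ⟨η', hη', ⌈v0⌉₊ + 1, fun u N hu huN P T h cell hinj hin hsep hgood => ?_⟩
  obtain ⟨o, ho, G', hG', hcard, t, ht, hbox⟩ := tiles_offset u
    ((Ico (0 : ℤ) N ×ˢ Ico (0 : ℤ) N).filter fun y : Z2 =>
      Cub (η * (u : ℝ) ^ 2) (T.filter fun τ => cell τ ∈ box y u))
  have hex : ∃ J : ℕ, N ≤ 2 ^ J * (2 * u + 1) :=
    ⟨N, (Nat.lt_two_pow_self (n := N)).le.trans (Nat.le_mul_of_pos_right _ (by omega))⟩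
  have hJ : N ≤ 2 ^ Nat.find hex * (2 * u + 1) := Nat.find_spec hex
  have hv3 : ∀ j, j ≤ Nat.find hex → 2 ^ j * (2 * u + 1) ≤ 3 * N := by
    intro j hj
    rcases j with _ | j
    · omega
    · have := Nat.find_min hex (m := j) (by omega)
      rw [pow_succ, mul_comm (2 ^ j) 2, mul_assoc]
      omega
  have huN' : (u : ℤ) ≤ N := by exact_mod_cast huN
  have hgeo := fun j (hj : j ≤ Nat.find hex) => tiles_geo N T cell hinj hin hsep o
    ⟨ho.1, by omega, ho.2.2.1, by omega⟩ (2 ^ j * (2 * u + 1)) (by positivity) (hv3 j hj)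
  have hu1 : (1 : ℝ) ≤ u := by exact_mod_cast (show 1 ≤ u by omega)
  refine habs N P T h (by omega) (fun j τ => qt o (2 ^ j * (2 * u + 1)) (cell τ))
    ((2 * u + 1 : ℕ) : ℝ) (Nat.find hex) ?_ (by exact_mod_cast hJ) ?_
    (fun j hj y => by exact_mod_cast (hgeo j hj).1 y)
    (fun j hj => by exact_mod_cast (hgeo j hj).2.1)
    (fun j hj i hi p => by exact_mod_cast (hgeo j hj).2.2 i hi p) ?_
  · refine (Nat.le_ceil v0).trans ?_
    exact_mod_cast (show ⌈v0⌉₊ ≤ 2 * u + 1 by omega)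
  · intro j _ τ _ τ' _ e
    have := qt_ref o _ _ _ e
    rw [pow_succ, mul_comm (2 ^ j) 2, mul_assoc]
    exact this
  · have hsub : G'.image t ⊆ good T (fun τ => qt o (2 ^ 0 * (2 * u + 1)) (cell τ))
        (η / 9 * ((2 * u + 1 : ℕ) : ℝ) ^ 2) := by
      intro y' hy'
      obtain ⟨y, hy, rfl⟩ := mem_image.1 hy'
      have hc := (mem_filter.1 (hG' hy)).2
      have hT : (T.filter fun τ => cell τ ∈ box y u) ⊆
          tile T (fun τ => qt o (2 ^ 0 * (2 * u + 1)) (cell τ)) (t y) := by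
        intro τ hτ
        refine mem_tile.2 ⟨(mem_filter.1 hτ).1, ?_⟩
        rw [pow_zero, one_mul]
        exact (hbox y hy _).1 (mem_filter.1 hτ).2
      refine mem_good.2 ⟨?_, cub_mono hc hT ?_⟩
      · obtain ⟨f, -, -, hf⟩ := hc
        have hpos : (0 : ℝ) < (cov f (T.filter fun τ => cell τ ∈ box y u)).card :=
          lt_of_lt_of_le (by positivity) hf
        obtain ⟨τ, hτ⟩ := card_pos.1 (Nat.cast_pos.1 hpos)
        obtain ⟨a1, a2⟩ := mem_tile.1 (hT (mem_cov.1 hτ).1)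
        exact mem_image.2 ⟨τ, a1, a2⟩
      · push_cast
        have : (2 * (u : ℝ) + 1) ^ 2 ≤ (3 * u) ^ 2 :=
          pow_le_pow_left₀ (by positivity) (by linarith) 2
        nlinarith
    have h1 := card_le_card hsub
    rw [card_image_of_injOn ht] at h1
    refine hgood.trans ?_
    exact_mod_cast hcard.trans (Nat.mul_le_mul_left _ h1)

end ECub.B
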