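import Pool.Agent.P.MP_029dcd_co.F.B.Basic

/-! Layer B: sparse fibres carry few triples. -/

set_option autoImplicit false

namespace ECub.B

open CubicStab Finset

theorem sparse_det {W : Type} [AddCommGroup W] {x y : Fin 3 → W} (hx : ∑ i, x i = 0)
    (hy : ∑ i, y i = 0) {i j : Fin 3} (hij : i ≠ j) (hi : x i = y i) (hj : x j = y j) :
    x = y := by
  rw [Fin.sum_univ_three] at hx hy
  have h0 : x 1 = y 1 → x 2 = y 2 → x 0 = y 0 := fun a b => by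
    rw [a, b] at hx
    exact add_right_cancel (add_right_cancel (hx.trans hy.symm))
  have h1 : x 0 = y 0 → x 2 = y 2 → x 1 = y 1 := fun a b => by
    rw [a, b] at hx
    exact add_left_cancel (add_right_cancel (hx.trans hy.symm))
  have h2 : x 0 = y 0 → x 1 = y 1 → x 2 = y 2 := fun a b => by
    rw [a, b] at hx
    exact add_left_cancel (hx.trans hy.symm)
  have key : x 0 = y 0 ∧ x 1 = y 1 ∧ x 2 = y 2 := by
    fin_cases i <;> fin_cases j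
    · exact absurd rfl hij
    · exact ⟨hi, hj, h2 hi hj⟩
    · exact ⟨hi, h1 hi hj, hj⟩
    · exact ⟨hj, hi, h2 hj hi⟩
    · exact absurd rfl hij
    · exact ⟨h0 hi hj, hi, hj⟩
    · exact ⟨hj, h1 hj hi, hi⟩
    · exact ⟨h0 hj hi, hj, hi⟩
    · exact absurd rfl hij
  funext l
  fin_cases l
  exacts [key.1, key.2.1, key.2.2]

theorem sparse_sum {k N : ℕ} {P : Fin 3 → Finset Pt} {T : Finset (Fin 3 → Pt)} (h : TS k N P T)
    {W : Type} [AddCommGroup W] (π : Fin 3 → Pt → W) (X : Finset (Fin 3 → W))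
    (hX : ∀ x ∈ X, ∑ i, x i = 0) {i j : Fin 3} (hij : i ≠ j) :
    ∑ x ∈ X, ((fib (P i) (π i) (x i)).card : ℝ) * (fib (P j) (π j) (x j)).card ≤ (N : ℝ) ^ 2 := by
  classical
  have h1 : ∑ x ∈ X, (fib (P i) (π i) (x i) ×ˢ fib (P j) (π j) (x j)).card ≤ (P i ×ˢ P j).card := by
    rw [← card_biUnion]
    · refine card_le_card fun p hp => ?_
      obtain ⟨x, -, hp⟩ := mem_biUnion.1 hp
      rw [mem_product, mem_fib, mem_fib] at hp
      exact mem_product.2 ⟨hp.1.1, hp.2.1⟩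
    · intro x hx y hy hne
      refine disjoint_left.2 fun p hp hq => hne ?_
      rw [mem_product, mem_fib, mem_fib] at hp hq
      exact sparse_det (hX x hx) (hX y hy) hij (hp.1.2.symm.trans hq.1.2)
        (hp.2.2.symm.trans hq.2.2)
  simp only [card_product] at h1
  have h2 := h1.trans (Nat.mul_le_mul (h.card_le i) (h.card_le j))
  rw [sq]
  exact_mod_cast h2

theorem sparse_one {k N : ℕ} {P : Fin 3 → Finset Pt} {T : Finset (Fin 3 → Pt)} (h : TS k N P T)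
    {W : Type} [AddCommGroup W] (π : Fin 3 → Pt → W) (hπ : ∀ τ ∈ T, ∑ i, π i (τ i) = 0)
    (ε : ℝ) (hε : 0 ≤ ε) {D : Finset (Fin 3 → Pt)} (hD : D ⊆ T) (i0 : Fin 3)
    (hs : ∀ τ ∈ D, ((fibT T π fun i => π i (τ i)).card : ℝ) ≤
      ε ^ 2 * ((fib (P i0) (π i0) (π i0 (τ i0))).card : ℝ) ^ 2) :
    (D.card : ℝ) ≤ ε * (N : ℝ) ^ 2 := by
  classical
  obtain ⟨j, l, hj, hl, hjl⟩ : ∃ j l : Fin 3, i0 ≠ j ∧ i0 ≠ l ∧ j ≠ l :=
    ⟨i0 + 1, i0 + 2, by fin_cases i0 <;> decide, by fin_cases i0 <;> decide,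
      by fin_cases i0 <;> decide⟩
  set X : Finset (Fin 3 → W) := D.image fun τ i => π i (τ i) with hXd
  have hX : ∀ x ∈ X, ∑ i, x i = 0 := by
    intro x hx
    obtain ⟨τ, hτ, rfl⟩ := mem_image.1 hx
    exact hπ τ (hD hτ)
  let nn : Fin 3 → (Fin 3 → W) → ℝ := fun i x => ((fib (P i) (π i) (x i)).card : ℝ)
  have hnn : ∀ i x, 0 ≤ nn i x := fun i x => Nat.cast_nonneg _
  have h1 : D ⊆ X.biUnion (fibT T π) := fun τ hτ =>
    mem_biUnion.2 ⟨_, mem_image_of_mem _ hτ, mem_fibT.2 ⟨hD hτ, fun _ => rfl⟩⟩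
  have h2 : (D.card : ℝ) ≤ ∑ x ∈ X, ((fibT T π x).card : ℝ) := by
    exact_mod_cast (card_le_card h1).trans card_biUnion_le
  have h3 : (∑ x ∈ X, ((fibT T π x).card : ℝ)) ^ 2 ≤
      (∑ x ∈ X, ε ^ 2 * (nn i0 x * nn j x)) * ∑ x ∈ X, nn i0 x * nn l x := by
    refine sum_sq_le_sum_mul_sum_of_sq_le_mul X
      (fun x _ => mul_nonneg (sq_nonneg _) (mul_nonneg (hnn _ _) (hnn _ _)))
      (fun x _ => mul_nonneg (hnn _ _) (hnn _ _)) fun x hx => ?_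
    have a1 : ((fibT T π x).card : ℝ) ≤ ε ^ 2 * nn i0 x ^ 2 := by
      obtain ⟨τ, hτ, rfl⟩ := mem_image.1 hx
      exact hs τ hτ
    have a2 : ((fibT T π x).card : ℝ) ≤ nn j x * nn l x := by
      have : (fibT T π x).card ≤ (fib (P j) (π j) (x j)).card * (fib (P l) (π l) (x l)).card :=
        ts_card_le_mul h (fun τ hτ => (mem_fibT.1 hτ).1) hjl
          (fun τ hτ => mem_fib.2 ⟨h.mem τ (mem_fibT.1 hτ).1 j, (mem_fibT.1 hτ).2 j⟩)
          fun τ hτ => mem_fib.2 ⟨h.mem τ (mem_fibT.1 hτ).1 l, (mem_fibT.1 hτ).2 l⟩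
      simp only [nn]
      exact_mod_cast this
    calc ((fibT T π x).card : ℝ) ^ 2 = (fibT T π x).card * (fibT T π x).card := sq _
      _ ≤ (ε ^ 2 * nn i0 x ^ 2) * (nn j x * nn l x) :=
        mul_le_mul a1 a2 (Nat.cast_nonneg _) (by positivity)
      _ = _ := by ring
  rw [← mul_sum] at h3
  have h4 := sparse_sum h π X hX hj
  have h5 := sparse_sum h π X hX hl
  have h6 : (D.card : ℝ) ^ 2 ≤ (ε * (N : ℝ) ^ 2) ^ 2 := by
    refine (pow_le_pow_left₀ (Nat.cast_nonneg _) h2 2).trans (h3.trans ?_)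
    calc _ ≤ (ε ^ 2 * (N : ℝ) ^ 2) * (N : ℝ) ^ 2 :=
          mul_le_mul (mul_le_mul_of_nonneg_left h4 (sq_nonneg _)) h5
            (sum_nonneg fun x _ => mul_nonneg (hnn _ _) (hnn _ _)) (by positivity)
      _ = _ := by ring
  exact (abs_le_of_sq_le_sq' h6 (by positivity)).2

theorem sparse_bound {k N : ℕ} {P : Fin 3 → Finset Pt} {T : Finset (Fin 3 → Pt)} (h : TS k N P T)
    {W : Type} [AddCommGroup W] (π : Fin 3 → Pt → W) (hπ : ∀ τ ∈ T, ∑ i, π i (τ i) = 0)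
    (ε : ℝ) (hε : 0 ≤ ε) {D : Finset (Fin 3 → Pt)} (hD : D ⊆ T)
    (hs : ∀ τ ∈ D, ∃ i0, ((fibT T π fun i => π i (τ i)).card : ℝ) ≤
      ε ^ 2 * ((fib (P i0) (π i0) (π i0 (τ i0))).card : ℝ) ^ 2) :
    (D.card : ℝ) ≤ 3 * ε * (N : ℝ) ^ 2 := by
  classical
  let Di : Fin 3 → Finset (Fin 3 → Pt) := fun i0 => D.filter fun τ =>
    ((fibT T π fun i => π i (τ i)).card : ℝ) ≤
      ε ^ 2 * ((fib (P i0) (π i0) (π i0 (τ i0))).card : ℝ) ^ 2
  have h1 : D ⊆ univ.biUnion Di := fun τ hτ => by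
    obtain ⟨i0, hi⟩ := hs τ hτ
    exact mem_biUnion.2 ⟨i0, mem_univ _, mem_filter.2 ⟨hτ, hi⟩⟩
  have h2 : (D.card : ℝ) ≤ ∑ i, ((Di i).card : ℝ) := by
    exact_mod_cast (card_le_card h1).trans card_biUnion_le
  have h3 : ∀ i, ((Di i).card : ℝ) ≤ ε * (N : ℝ) ^ 2 := fun i =>
    sparse_one h π hπ ε hε ((filter_subset _ _).trans hD) i fun τ hτ => (mem_filter.1 hτ).2
  rw [Fin.sum_univ_three] at h2
  linarith [h3 0, h3 1, h3 2]

end ECub.B
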