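import Pool.Agent.P.MP_029dcd_co.F.B.AddCub
import Pool.Agent.P.MP_029dcd_co.F.B.Sparse
import Pool.Agent.P.MP_029dcd_co.F.B.Dense

/-! Layer B: gluing along the fibres of an additive relation. -/

set_option autoImplicit false

namespace ECub.B

open CubicStab Finset

theorem glue2' (k : ℕ) (γ : ℝ) (hγ : 0 < γ) :
    ∃ ε : ℝ, 0 < ε ∧ ∀ η : ℝ, 0 < η → ∀ M0 : ℕ, ∃ η' : ℝ, 0 < η' ∧ ∃ N0 : ℕ, ∀ N, N0 ≤ N →
      ∀ (W : Type) [AddCommGroup W] [Module ℚ W]
        (P : Fin 3 → Finset Pt) (T : Finset (Fin 3 → Pt)), TS k N P T →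
      γ * (N : ℝ) ^ 2 ≤ T.card → ∀ π : Fin 3 → Pt → W, (∀ τ ∈ T, ∑ i, π i (τ i) = 0) →
      (∀ (x : Fin 3 → W) (n : ℕ), M0 ≤ n → (∀ i, (fib (P i) (π i) (x i)).card ≤ n) →
        ε * (n : ℝ) ^ 2 ≤ (fibT T π x).card → Cub (η * (n : ℝ) ^ 2) (fibT T π x)) →
      Cub (η' * (N : ℝ) ^ 2) T := by
  classical
  refine ⟨(γ / 12) ^ 2, by positivity, fun η hη M0 => ?_⟩
  obtain ⟨M1, hM1⟩ := exists_nat_gt (max (M0 : ℝ) (max (9 * ((k : ℝ) + 1) / η) (36 / η ^ 2)))
  have hM10 : M0 ≤ M1 := by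
    have := (le_max_left _ _).trans hM1.le
    exact_mod_cast this
  have hM11 : 9 * ((k : ℝ) + 1) < η * M1 := by
    have := ((le_max_left _ _).trans (le_max_right _ _)).trans_lt hM1
    rw [div_lt_iff₀ hη] at this
    linarith
  have hM12 : 36 ≤ η ^ 2 * M1 := by
    have := ((le_max_right _ _).trans (le_max_right _ _)).trans hM1.le
    rw [div_le_iff₀ (by positivity)] at this
    linarith
  obtain ⟨η1, hη1, N1, hadd⟩ := add_cub' k M1 (γ / 4) (by positivity)
  refine ⟨min η1 ((η * (γ / 2)) ^ 2 / 8), lt_min hη1 (by positivity), N1 + 1,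
    fun N hN W _ _ P T h hT π hπ hfib => ?_⟩
  have hN2 : (0 : ℝ) ≤ (N : ℝ) ^ 2 := by positivity
  let n : (Fin 3 → Pt) → Fin 3 → ℕ := fun τ i => (fib (P i) (π i) (π i (τ i))).card
  let Sm := T.filter fun τ => ∀ i, n τ i ≤ M1
  by_cases hs : γ / 4 * (N : ℝ) ^ 2 ≤ Sm.card
  · let P' : Fin 3 → Finset Pt := fun i =>
      (P i).filter fun p => (fib (P i) (π i) (π i p)).card ≤ M1
    have h' : TS k N P' Sm := ts_mono h (fun i => filter_subset _ _) (filter_subset _ _)
      (fun τ hτ i => mem_filter.2 ⟨h.mem τ (mem_filter.1 hτ).1 i, (mem_filter.1 hτ).2 i⟩)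
      fun i => (card_le_card (filter_subset _ _)).trans (h.card_le i)
    have := hadd N (by omega) W P' Sm h' hs π (fun τ hτ => hπ τ (mem_filter.1 hτ).1) (by
      intro i x
      rcases (fib (P' i) (π i) x).eq_empty_or_nonempty with e | ⟨p, hp⟩
      · rw [e]; simp
      · obtain ⟨a1, a2⟩ := mem_fib.1 hp
        have a3 := (mem_filter.1 a1).2
        rw [a2] at a3
        refine le_trans (card_le_card fun q hq => ?_) a3
        exact mem_fib.2 ⟨(mem_filter.1 (mem_fib.1 hq).1).1, (mem_fib.1 hq).2⟩)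
    exact cub_mono this (filter_subset _ _) (mul_le_mul_of_nonneg_right (min_le_left _ _) hN2)
  · push Not at hs
    let Sp := T.filter fun τ => ∃ i0, ((fibT T π fun i => π i (τ i)).card : ℝ) ≤
      (γ / 12) ^ 2 * ((fib (P i0) (π i0) (π i0 (τ i0))).card : ℝ) ^ 2
    have hsp : (Sp.card : ℝ) ≤ 3 * (γ / 12) * (N : ℝ) ^ 2 :=
      sparse_bound h π hπ (γ / 12) (by positivity) (filter_subset _ _)
        fun τ hτ => (mem_filter.1 hτ).2
    let D := T \ (Sm ∪ Sp)
    have hD : γ / 2 * (N : ℝ) ^ 2 ≤ D.card := by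
      have a1 : T.card ≤ D.card + (Sm.card + Sp.card) :=
        le_trans (card_le_card_sdiff_add_card (s := T) (t := Sm ∪ Sp))
          (Nat.add_le_add_left (card_union_le _ _) _)
      have a2 : (T.card : ℝ) ≤ D.card + (Sm.card + Sp.card) := by exact_mod_cast a1
      linarith
    have := dense_cub h (by omega) π η (γ / 2) hη (by positivity) (D := D) sdiff_subset hD (by
      intro τ hτ
      obtain ⟨hτT, hτn⟩ := mem_sdiff.1 hτ
      rw [mem_union, not_or] at hτn
      obtain ⟨i0, -, hi0⟩ := exists_max_image univ (n τ) univ_nonempty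
      have hbig : M1 ≤ n τ i0 := by
        by_contra hlt
        exact hτn.1 (mem_filter.2 ⟨hτT, fun i => (hi0 i (mem_univ _)).trans (by omega)⟩)
      have hbig' : (M1 : ℝ) ≤ n τ i0 := by exact_mod_cast hbig
      refine ⟨n τ i0, fun i => hi0 i (mem_univ _), ?_, ?_, ?_⟩
      · exact hM11.trans_le (mul_le_mul_of_nonneg_left hbig' hη.le)
      · exact hM12.trans (mul_le_mul_of_nonneg_left hbig' (by positivity))
      · refine hfib _ (n τ i0) (hM10.trans hbig) (fun i => hi0 i (mem_univ _)) ?_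
        by_contra hlt
        exact hτn.2 (mem_filter.2 ⟨hτT, i0, (not_le.1 hlt).le⟩))
    exact cub_mono this Subset.rfl (mul_le_mul_of_nonneg_right (min_le_right _ _) hN2)

end ECub.B
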