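import Pool.Agent.P.MP_029dcd_co.F.B.Step

/-! Layer B: the multi-scale gluing for abstract nested tilings. -/

set_option autoImplicit false

namespace ECub.B

open CubicStab Finset

lemma glueabs_mono (P : Fin 3 → Finset Pt) (T : Finset (Fin 3 → Pt)) (q : (Fin 3 → Pt) → Z2)
    {z z' : ℝ} (hz : z' ≤ z) : ((CovT P T q z).card : ℝ) ≤ (CovT P T q z').card := by
  have : CovT P T q z ⊆ CovT P T q z' := fun τ hτ => by
    obtain ⟨h1, S, hS, h2, h3⟩ := mem_CovT.1 hτ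
    exact mem_CovT.2 ⟨h1, S, hS, h2, hz.trans h3⟩
  exact_mod_cast card_le_card this

lemma glueabs_pow (j : ℕ) : (((21 : ℝ) / 20) ^ j) ^ 11 ≤ 2 ^ j := by
  rw [← pow_mul, mul_comm, pow_mul]
  exact pow_le_pow_left₀ (by positivity) (by norm_num) j

lemma glueabs_cond {a b K σ v : ℝ} (ha : 1 ≤ a) (hab : a ^ 11 ≤ b) (hK : 0 < K) (hv : 0 < v)
    (h : 288 * K ^ 3 * (21 / 20) ^ 3 ≤ σ ^ 4 * v) :
    36 * (K * (a * (21 / 20)) * (b * 2 * v)) ^ 3 ≤ ((σ / a ^ 2) ^ 2 * (b * v) ^ 2) ^ 2 := by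
  have ha0 : 0 < a := by linarith
  have hb : 0 < b := lt_of_lt_of_le (by positivity) hab
  have e1 : ((σ / a ^ 2) ^ 2 * (b * v) ^ 2) ^ 2 = (σ ^ 4 * v) * b * ((b * v) ^ 3 / a ^ 8) := by
    field_simp
  have e2 : 36 * (K * (a * (21 / 20)) * (b * 2 * v)) ^ 3 =
      (288 * K ^ 3 * (21 / 20) ^ 3) * a ^ 11 * ((b * v) ^ 3 / a ^ 8) := by
    field_simp
    ring
  rw [e1, e2]
  refine mul_le_mul_of_nonneg_right (mul_le_mul h hab (by positivity) ?_) (by positivity)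
  exact le_trans (by positivity) h

lemma glueabs_top {a b n σ v : ℝ} (ha : 1 ≤ a) (hab : a ^ 11 ≤ b) (hv : 0 < v) (hn : 0 ≤ n)
    (hnb : n ≤ b * v) (h : 36 ≤ σ ^ 4 * v) :
    36 * n ^ 3 ≤ ((σ / a ^ 2) ^ 2 * (b * v) ^ 2) ^ 2 := by
  have ha0 : 0 < a := by linarith
  have hb : 0 < b := lt_of_lt_of_le (by positivity) hab
  have e1 : ((σ / a ^ 2) ^ 2 * (b * v) ^ 2) ^ 2 = (σ ^ 4 * v) * (b / a ^ 8) * (b * v) ^ 3 := by
    field_simp
  have h8 : 1 ≤ b / a ^ 8 := by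
    rw [le_div_iff₀ (by positivity), one_mul]
    exact (pow_le_pow_right₀ ha (by norm_num)).trans hab
  rw [e1]
  refine mul_le_mul ?_ (pow_le_pow_left₀ hn hnb 3) (by positivity) ?_
  · nlinarith
  · nlinarith

theorem glue_abs (k : ℕ) (γ η : ℝ) (hγ : 0 < γ) (hη : 0 < η) :
    ∃ η' : ℝ, 0 < η' ∧ ∃ v0 : ℝ, ∀ (N : ℕ) (P : Fin 3 → Finset Pt) (T : Finset (Fin 3 → Pt)),
      TS k N P T → 0 < N → ∀ (q : ℕ → (Fin 3 → Pt) → Z2) (v : ℝ) (J : ℕ), v0 ≤ v →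
      (N : ℝ) ≤ 2 ^ J * v →
      (∀ j, j < J → ∀ τ ∈ T, ∀ τ' ∈ T, q j τ = q j τ' → q (j + 1) τ = q (j + 1) τ') →
      (∀ j, j ≤ J → ∀ y, ((tile T (q j) y).card : ℝ) ≤ (2 ^ j * v) ^ 2) →
      (∀ j, j ≤ J → ((T.image (q j)).card : ℝ) * (2 ^ j * v) ^ 2 ≤ 49 * (N : ℝ) ^ 2) →
      (∀ j, j ≤ J → ∀ i : Fin 3, i ≠ 2 → ∀ p,
        ((met T (q j) i p).card : ℝ) * (2 ^ j * v) ≤ 20 * N) →
      γ * (N : ℝ) ^ 2 ≤ v ^ 2 * (good T (q 0) (η * v ^ 2)).card →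
      Cub (η' * (N : ℝ) ^ 2) T := by
  obtain ⟨g, hg⟩ : ∃ g : ℝ, g = η * γ / 2 := ⟨_, rfl⟩
  have hg0 : 0 < g := by rw [hg]; positivity
  obtain ⟨K, hK⟩ : ∃ K : ℝ, K = 3200 / g := ⟨_, rfl⟩
  have hK0 : 0 < K := by rw [hK]; positivity
  obtain ⟨σ, hσ0, hσ1, hσ2, hσ3⟩ : ∃ σ : ℝ, 0 < σ ∧ σ ≤ g / (7840 * K) ∧ σ ≤ 1 ∧ σ ≤ η :=
    ⟨min (g / (7840 * K)) (min 1 η), by positivity, min_le_left _ _,
      (min_le_right _ _).trans (min_le_left _ _), (min_le_right _ _).trans (min_le_right _ _)⟩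
  have hloss : 40 / K + 98 * K * σ ≤ g / 40 := by
    have a1 : 40 / K = g / 80 := by rw [hK]; field_simp; norm_num
    have a2 : σ * (7840 * K) ≤ g := (le_div_iff₀ (by positivity)).1 hσ1
    rw [a1]
    linarith
  refine ⟨(g / 2) ^ 2 / 8, by positivity, 9 * ((k : ℝ) + 1) * (80 / γ) / η + 1 +
    288 * K ^ 3 * (21 / 20) ^ 3 / σ ^ 4 + 36 / σ ^ 4, ?_⟩
  intro N P T h hN q v J hv0 hNJ href hsz hnum hmet hgood
  have p1 : 0 < 9 * ((k : ℝ) + 1) * (80 / γ) / η := by positivity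
  have p2 : 0 < 288 * K ^ 3 * (21 / 20) ^ 3 / σ ^ 4 := by positivity
  have p3 : 0 < 36 / σ ^ 4 := by positivity
  have hv : 0 < v := by linarith
  have c1 : 9 * ((k : ℝ) + 1) * (80 / γ) < η * v := by
    have : 9 * ((k : ℝ) + 1) * (80 / γ) / η < v := by linarith
    rw [div_lt_iff₀ hη] at this
    linarith
  have c2 : 288 * K ^ 3 * (21 / 20) ^ 3 ≤ σ ^ 4 * v := by
    have : 288 * K ^ 3 * (21 / 20) ^ 3 / σ ^ 4 ≤ v := by linarith
    rw [div_le_iff₀ (by positivity)] at this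
    linarith
  have c3 : 36 ≤ σ ^ 4 * v := by
    have : 36 / σ ^ 4 ≤ v := by linarith
    rw [div_le_iff₀ (by positivity)] at this
    linarith
  have hN2 : (0 : ℝ) ≤ (N : ℝ) ^ 2 := by positivity
  have one_le : ∀ j : ℕ, (1 : ℝ) ≤ (21 / 20) ^ j := fun j => one_le_pow₀ (by norm_num)
  have key : ∀ j, j ≤ J → (g / 2 + g / 2 / (21 / 20) ^ j) * (N : ℝ) ^ 2 ≤
      (CovT P T (q j) ((σ / ((21 / 20) ^ j) ^ 2) ^ 2 * (2 ^ j * v) ^ 2)).card := by
    intro j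
    induction j with
    | zero =>
      intro hJ
      have b1 := glue_base h (q 0) (K := 80 / γ) hv (by positivity) hη
        (fun i hi p => by simpa using hmet 0 hJ i hi p) c1 hgood
      have b2 : η * (γ - 40 / (80 / γ)) = g / 2 + g / 2 / (21 / 20) ^ 0 := by
        rw [hg]; field_simp; ring
      rw [b2] at b1
      refine b1.trans (glueabs_mono P T _ ?_)
      simp only [pow_zero, one_pow, div_one, one_mul]
      exact mul_le_mul_of_nonneg_right (by nlinarith) (by positivity)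
    | succ j ih =>
      intro hJ
      have b0 := ih (by omega)
      have ha := one_le j
      have b1 := glue_step h (q j) (q (j + 1)) (href j (by omega)) (v := 2 ^ (j + 1) * v)
        (K := K * (21 / 20) ^ (j + 1))
        (z := (σ / ((21 / 20) ^ j) ^ 2) ^ 2 * (2 ^ j * v) ^ 2)
        (σ := σ / ((21 / 20) ^ (j + 1)) ^ 2) (by positivity) (by positivity) (by positivity)
        (by positivity) (hsz _ hJ) (hnum _ hJ) (hmet _ hJ) (by
          rw [pow_succ (21 / 20 : ℝ) j, pow_succ (2 : ℝ) j]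
          exact glueabs_cond ha (glueabs_pow j) hK0 hv c2)
      have b2 : 40 / (K * (21 / 20) ^ (j + 1)) +
          98 * (K * (21 / 20) ^ (j + 1)) * (σ / ((21 / 20) ^ (j + 1)) ^ 2) =
          (40 / K + 98 * K * σ) / (21 / 20) ^ (j + 1) := by
        field_simp
      have b3 : (40 / K + 98 * K * σ) / (21 / 20) ^ (j + 1) ≤ g / 40 / (21 / 20) ^ (j + 1) :=
        div_le_div_of_nonneg_right hloss (by positivity)
      have b4 : g / 2 / (21 / 20) ^ j =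
          g / 2 / (21 / 20) ^ (j + 1) + g / 40 / (21 / 20) ^ (j + 1) := by
        rw [pow_succ]; field_simp; ring
      rw [b2] at b1
      rw [b4] at b0
      have b5 := mul_le_mul_of_nonneg_right b3 hN2
      linarith
  have hfin := key J le_rfl
  refine glue_top h hN (q J) (z := (σ / ((21 / 20) ^ J) ^ 2) ^ 2 * (2 ^ J * v) ^ 2)
    (by positivity) (by positivity)
    (glueabs_top (one_le J) (glueabs_pow J) hv (Nat.cast_nonneg _) hNJ c3) (le_trans ?_ hfin)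
  refine mul_le_mul_of_nonneg_right ?_ hN2
  have : 0 ≤ g / 2 / (21 / 20) ^ J := by positivity
  linarith

end ECub.B
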