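import Pool.Agent.P.MP_029dcd_co.F.B.Basic

/-! Layer B: a grid of triples lies on an irreducible cubic. -/

set_option autoImplicit false

namespace ECub.B

open CubicStab Finset

theorem grid_cubic {k N : ℕ} {P : Fin 3 → Finset Pt} {T : Finset (Fin 3 → Pt)} (h : TS k N P T)
    (M : ℕ) (hM : 6 * k + 8 ≤ M) (a b c : ℕ → Pt) (τ : ℕ → ℕ → Fin 3 → Pt)
    (hτ : ∀ i j, i ≤ 2 * (M + 4) → j ≤ 2 * (M + 4) →
      τ i j ∈ T ∧ τ i j 0 = a i ∧ τ i j 1 = b j ∧ τ i j 2 = c (i + j))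
    (ha : ∀ i j, i ≤ 2 * (M + 4) → j ≤ 2 * (M + 4) → a i = a j → i = j)
    (hb : ∀ i j, i ≤ 2 * (M + 4) → j ≤ 2 * (M + 4) → b i = b j → i = j) :
    ∃ S ∈ Col (U P), (∀ j, j ≤ M → a (M + 4 + j) ∈ S) ∧ ∀ i, τ (M + 4) (M + 5) i ∈ S := by
  classical
  let φ : ℕ → ℕ → Pt := fun r i =>
    if hh : τ (M + 4 + r) (M + 4 + i) ∈ T then (h.col _ hh).choose else (0, 0)
  have hφ : ∀ r i, r ≤ M + 4 → i ≤ M + 4 → ∀ l, On (τ (M + 4 + r) (M + 4 + i) l) (φ r i) := by
    intro r i hr hi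
    have hh := (hτ (M + 4 + r) (M + 4 + i) (by omega) (by omega)).1
    have e : φ r i = (h.col _ hh).choose := dif_pos hh
    rw [e]
    exact (h.col _ hh).choose_spec
  let A : Finset Pt := (range (M + 5)).image (fun r => a (M + 4 + r)) ∪
    ((range (M + 5)).image (fun r => b (M + 4 + r)) ∪
      (range (M + 5)).image (fun r => c (2 * (M + 4) + r)))
  have hA : ∀ p, p ∈ A ↔ (∃ r, r ≤ M + 4 ∧ a (M + 4 + r) = p) ∨
      (∃ r, r ≤ M + 4 ∧ b (M + 4 + r) = p) ∨ ∃ r, r ≤ M + 4 ∧ c (2 * (M + 4) + r) = p := by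
    intro p
    simp only [A, mem_union, mem_image, mem_range, Nat.lt_succ_iff]
  have haP : ∀ i, i ≤ 2 * (M + 4) → a i ∈ P 0 := by
    intro i hi
    obtain ⟨h1, h2, -, -⟩ := hτ i 0 hi (by omega)
    exact h2 ▸ h.mem _ h1 0
  have hbP : ∀ i, i ≤ 2 * (M + 4) → b i ∈ P 1 := by
    intro i hi
    obtain ⟨h1, -, h2, -⟩ := hτ 0 i (by omega) hi
    exact h2 ▸ h.mem _ h1 1
  have hcP : ∀ r, r ≤ M + 4 → c (2 * (M + 4) + r) ∈ P 2 := by
    intro r hr
    obtain ⟨h1, -, -, h2⟩ := hτ (M + 4) (M + 4 + r) (by omega) (by omega)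
    have e : 2 * (M + 4) + r = M + 4 + (M + 4 + r) := by omega
    rw [e]
    exact h2 ▸ h.mem _ h1 2
  have hAU : A ⊆ U P := by
    intro p hp
    rcases (hA p).1 hp with ⟨r, hr, rfl⟩ | ⟨r, hr, rfl⟩ | ⟨r, hr, rfl⟩
    · exact mem_U.2 ⟨0, haP _ (by omega)⟩
    · exact mem_U.2 ⟨1, hbP _ (by omega)⟩
    · exact mem_U.2 ⟨2, hcP _ hr⟩
  have key : ∀ r i, r ≤ M + 4 → i ≤ M + 4 → ∀ x y, x ≤ 2 * (M + 4) → y ≤ 2 * (M + 4) →
      ∀ l m : Fin 3, l ≠ m → On (τ x y l) (φ r i) → On (τ x y m) (φ r i) →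
      τ x y = τ (M + 4 + r) (M + 4 + i) := by
    intro r i hr hi x y hx hy l m hlm h1 h2
    have t1 := (hτ x y hx hy).1
    have t2 := (hτ (M + 4 + r) (M + 4 + i) (by omega) (by omega)).1
    exact h.one _ t1 _ t2 _ (ts_line h t1 hlm h1 h2) (hφ r i hr hi)
  have H : Lat A (M + 4) (fun r => a (M + 4 + r)) (fun r => b (M + 4 + r))
      (fun r => c (2 * (M + 4) + r)) φ := by
    refine ⟨fun r hr => (hA _).2 (Or.inl ⟨r, hr, rfl⟩),
      fun r hr => (hA _).2 (Or.inr (Or.inl ⟨r, hr, rfl⟩)),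
      fun r hr => (hA _).2 (Or.inr (Or.inr ⟨r, hr, rfl⟩)), ?_, ?_, ?_, ?_, ?_, ?_⟩
    · intro r i hri p hp
      obtain ⟨-, e0, e1, e2⟩ := hτ (M + 4 + r) (M + 4 + i) (by omega) (by omega)
      have e3 : M + 4 + r + (M + 4 + i) = 2 * (M + 4) + (r + i) := by omega
      rw [e3] at e2
      have o0 := hφ r i (by omega) (by omega) 0
      have o1 := hφ r i (by omega) (by omega) 1
      have o2 := hφ r i (by omega) (by omega) 2
      rw [e0] at o0
      rw [e1] at o1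
      rw [e2] at o2
      constructor
      · intro hon
        rcases (hA p).1 hp with ⟨s, hs, rfl⟩ | ⟨s, hs, rfl⟩ | ⟨s, hs, rfl⟩
        · obtain ⟨-, f0, f1, -⟩ := hτ (M + 4 + s) (M + 4 + i) (by omega) (by omega)
          have := key r i (by omega) (by omega) (M + 4 + s) (M + 4 + i) (by omega) (by omega)
            0 1 (by decide) (f0 ▸ hon) (f1 ▸ o1)
          exact Or.inl (by rw [← f0, this, e0])
        · obtain ⟨-, f0, f1, -⟩ := hτ (M + 4 + r) (M + 4 + s) (by omega) (by omega)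
          have := key r i (by omega) (by omega) (M + 4 + r) (M + 4 + s) (by omega) (by omega)
            0 1 (by decide) (f0 ▸ o0) (f1 ▸ hon)
          exact Or.inr (Or.inl (by rw [← f1, this, e1]))
        · obtain ⟨-, f0, -, f2⟩ := hτ (M + 4 + r) (M + 4 + s - r) (by omega) (by omega)
          have e4 : M + 4 + r + (M + 4 + s - r) = 2 * (M + 4) + s := by omega
          rw [e4] at f2
          have := key r i (by omega) (by omega) (M + 4 + r) (M + 4 + s - r) (by omega) (by omega)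
            0 2 (by decide) (f0 ▸ o0) (f2 ▸ hon)
          exact Or.inr (Or.inr (by rw [← f2, this, e2]))
      · rintro (rfl | rfl | rfl)
        · exact o0
        · exact o1
        · exact o2
    · intro r i hri
      exact ts_ne h (i := 0) (j := 1) (by decide) (haP _ (by omega)) (hbP _ (by omega))
    · intro r i hri
      exact ts_ne h (i := 0) (j := 2) (by decide) (haP _ (by omega)) (hcP _ hri)
    · intro r i hri
      exact ts_ne h (i := 1) (j := 2) (by decide) (hbP _ (by omega)) (hcP _ hri)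
    · intro i j hi hj e
      have := key 0 j (by omega) hj (M + 4 + 0) (M + 4 + i) (by omega) (by omega) 0 1
        (by decide) (e ▸ hφ 0 i (by omega) hi 0) (e ▸ hφ 0 i (by omega) hi 1)
      have f1 := (hτ (M + 4 + 0) (M + 4 + i) (by omega) (by omega)).2.2.1
      have f2 := (hτ (M + 4 + 0) (M + 4 + j) (by omega) (by omega)).2.2.1
      have := hb (M + 4 + i) (M + 4 + j) (by omega) (by omega) (by rw [← f1, this, f2])
      omega
    · intro i j hi hj e
      have := key j 0 hj (by omega) (M + 4 + i) (M + 4 + 0) (by omega) (by omega) 0 1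
        (by decide) (e ▸ hφ i 0 hi (by omega) 0) (e ▸ hφ i 0 hi (by omega) 1)
      have f1 := (hτ (M + 4 + i) (M + 4 + 0) (by omega) (by omega)).2.1
      have f2 := (hτ (M + 4 + j) (M + 4 + 0) (by omega) (by omega)).2.1
      have := ha (M + 4 + i) (M + 4 + j) (by omega) (by omega) (by rw [← f1, this, f2])
      omega
  obtain ⟨f, hf, hf3, hz⟩ := H.irred_cubic k ((U_inj h).mono (coe_subset.2 hAU))
    (fun v S hS hv => U_few h v S (hS.trans hAU) hv) M le_rfl hM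
  refine ⟨zs (U P) f, mem_Col.2 ⟨f, hf, hf3, rfl⟩, fun j hj => ?_, fun i => ?_⟩
  · exact mem_zs.2 ⟨mem_U.2 ⟨0, haP _ (by omega)⟩, (hz j hj).1⟩
  · obtain ⟨t1, e0, e1, e2⟩ := hτ (M + 4) (M + 5) (by omega) (by omega)
    refine mem_zs.2 ⟨ts_mem_U h t1 i, ?_⟩
    have e3 : M + 4 + (M + 5) = 2 * (M + 4) + (0 + 1) := by omega
    rw [e3] at e2
    fin_cases i
    · exact (congrArg (ev f) e0).trans (hz 0 (by omega)).1
    · exact (congrArg (ev f) e1).trans (hz 1 (by omega)).2.1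
    · exact (congrArg (ev f) e2).trans (hz 0 (by omega)).2.2

end ECub.B
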