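import Pool.Agent.P.MP_029dcd_co.F.B.Basic

/-! Layer B: an additive structure in a rational vector space has an integer model. -/

set_option autoImplicit false

namespace ECub.B

open CubicStab Finset

theorem int_model (W : Type) [AddCommGroup W] [Module ℚ W] (P : Fin 3 → Finset Pt)
    (φ : Fin 3 → Pt → W) :
    ∃ ψ : Fin 3 → Pt → ℤ,
      (∀ τ : Fin 3 → Pt, (∀ i, τ i ∈ P i) → ∑ i, φ i (τ i) = 0 → ∑ i, ψ i (τ i) = 0) ∧
      ∀ i, ∀ p ∈ P i, ∀ q ∈ P i, ψ i p = ψ i q → φ i p = φ i q := by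
  classical
  let D : Finset W := (univ.biUnion fun i => (P i ×ˢ P i).image fun x => φ i x.1 - φ i x.2).filter
    fun w => w ≠ 0
  obtain ⟨f, hf⟩ := Module.exists_dual_forall_apply_ne_zero (K := ℚ) (fun w : D => (w : W))
    (fun w => (mem_filter.1 w.2).2)
  let V : Finset ℚ := univ.biUnion fun i => (P i).image fun p => f (φ i p)
  obtain ⟨b, hb⟩ := IsLocalization.exist_integer_multiples_of_finset (nonZeroDivisors ℤ) V
  have hb0 : ((b : ℤ) : ℚ) ≠ 0 := by exact_mod_cast nonZeroDivisors.coe_ne_zero b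
  have hex : ∀ i p, ∃ z : ℤ, p ∈ P i → (z : ℚ) = (b : ℤ) * f (φ i p) := by
    intro i p
    by_cases hp : p ∈ P i
    · obtain ⟨z, hz⟩ := hb (f (φ i p))
        (mem_biUnion.2 ⟨i, mem_univ _, mem_image_of_mem (fun p => f (φ i p)) hp⟩)
      refine ⟨z, fun _ => ?_⟩
      simpa using hz
    · exact ⟨0, fun h => absurd h hp⟩
  choose ψ hψ using hex
  refine ⟨ψ, fun τ hτ h0 => ?_, fun i p hp q hq e => ?_⟩
  · have : ((∑ i, ψ i (τ i) : ℤ) : ℚ) = (b : ℤ) * f (∑ i, φ i (τ i)) := by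
      rw [map_sum, mul_sum, Int.cast_sum]
      exact sum_congr rfl fun i _ => hψ i _ (hτ i)
    rw [h0, map_zero, mul_zero] at this
    exact_mod_cast this
  · by_contra hne
    have hD : φ i p - φ i q ∈ D := mem_filter.2 ⟨mem_biUnion.2 ⟨i, mem_univ _,
      mem_image.2 ⟨(p, q), mem_product.2 ⟨hp, hq⟩, rfl⟩⟩, sub_ne_zero.2 hne⟩
    apply hf ⟨_, hD⟩
    have h1 := hψ i p hp
    rw [e, hψ i q hq] at h1
    have h2 := mul_left_cancel₀ hb0 h1
    simp only [map_sub, h2, sub_self]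

end ECub.B
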