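import Pool.Agent.P.MP_029dcd_co.F.B.Glue2

/-! Layer B: a galaxy has no fibred additive structure at all large scales. -/

set_option autoImplicit false

namespace ECub.B

open CubicStab Filter Finset

lemma nglue_rep {k : ℕ} {C : ℝ} {G : Gal} (hG : G.Ax k C) {l : Lb} (hl : G.valid l) :
    G.valid (G.rep l) ∧ G.same l (G.rep l) = true := by
  obtain ⟨l', h1, h2, h3⟩ := hG.can_ex l hl 0
  have h : ∃ l', G.valid l ∧ G.Can (G.fam l) l' ∧ G.same l l' = true ∧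
      idx (G.fam l) l'.1 = 0 := ⟨l', hl, h1, h2, h3⟩
  have e : G.rep l = h.choose := dif_pos h
  rw [e]
  exact ⟨h.choose_spec.2.1.1, h.choose_spec.2.2.1⟩

lemma nglue_same {k : ℕ} {C : ℝ} {G : Gal} (hG : G.Ax k C) {l l' : Lb} (hl : G.valid l)
    (hl' : G.valid l') (e : G.rep l = G.rep l') : G.same l l' = true := by
  obtain ⟨a1, a2⟩ := nglue_rep hG hl
  obtain ⟨b1, b2⟩ := nglue_rep hG hl'
  exact hG.same_trans _ _ _ hl a1 hl' a2 (e ▸ hG.same_symm _ _ hl' b1 b2)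

lemma nglue_desc {α β γ : Type} [Zero γ] (s : Finset α) (f : α → β) (F : α → γ)
    (h : ∀ a ∈ s, ∀ b ∈ s, f a = f b → F a = F b) : ∃ F' : β → γ, ∀ a ∈ s, F' (f a) = F a := by
  classical
  refine ⟨fun p => if hp : ∃ a ∈ s, f a = p then F hp.choose else 0, fun a ha => ?_⟩
  have hp : ∃ a' ∈ s, f a' = f a := ⟨a, ha, rfl⟩
  simp only [dif_pos hp]
  exact h _ hp.choose_spec.1 a ha hp.choose_spec.2

lemma nglue_trip {G : Gal} {r : Lb → Pt} {C : Finset Z2} {τ : Fin 3 → Pt} :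
    τ ∈ G.trip r C ↔ ∃ w ∈ C, G.tp w = true ∧ (fun i => r (G.tlab w i)) = τ := by
  simp only [Gal.trip, mem_image, mem_filter, and_assoc]

open Classical in
theorem nglue' {k : ℕ} {C : ℝ} (G : Gal) (hG : G.Ax k C) (K : ℕ)
    (hK : ∀ᶠ u : ℕ in atTop, ∀ i, (((box 0 u).filter fun w => G.tp w = true).image
      fun w => G.rep (G.tlab w i)).card ≤ K * u)
    (W : Type) [AddCommGroup W] [Module ℚ W] (γ : ℝ) (hγ : 0 < γ) (M : ℕ) :
    ¬ ∀ᶠ u : ℕ in atTop, ∃ (Cs : Finset Z2) (π : Fin 3 → Lb → ℝ)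
      (φ : (Fin 3 → ℝ) → Fin 3 → Lb → W),
      (∀ w ∈ Cs, w ∈ box 0 u ∧ G.tp w = true) ∧ γ * (u : ℝ) ^ 2 ≤ Cs.card ∧
      (∀ i, ∀ w ∈ Cs, ∀ w' ∈ Cs, G.same (G.tlab w i) (G.tlab w' i) = true →
        π i (G.tlab w i) = π i (G.tlab w' i) ∧
          ∀ x, φ x i (G.tlab w i) = φ x i (G.tlab w' i)) ∧
      (∀ w ∈ Cs, ∑ i, π i (G.tlab w i) = 0 ∧
        ∑ i, φ (fun j => π j (G.tlab w j)) i (G.tlab w i) = 0) ∧
      ∀ (x : Fin 3 → ℝ) (i : Fin 3) (y : W),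
        ((Cs.filter fun w => (∀ j, π j (G.tlab w j) = x j) ∧ φ x i (G.tlab w i) = y).image
          fun w => G.rep (G.tlab w i)).card ≤ M := by
  intro H
  have hK0 : (0 : ℝ) < ((K + 1 : ℕ) : ℝ) := by positivity
  obtain ⟨ε, hε, h2⟩ := glue2' k (γ / ((K + 1 : ℕ) : ℝ) ^ 2) (by positivity)
  obtain ⟨η, hη, M0, hadd⟩ := add_cub' k M ε hε
  obtain ⟨η', hη', N0, hgl⟩ := h2 η hη M0
  obtain ⟨u0, hu0⟩ := eventually_atTop.1 (hK.and H)
  obtain ⟨u, hu, r, hr1, hr2, hr3, hr4, hr5⟩ :=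
    hG.nc (η' * ((K + 1 : ℕ) : ℝ) ^ 2) (by positivity) (max u0 N0)
  obtain ⟨hKu, Cs, π, φ, hC, hcard, hline, hsum, hM⟩ := hu0 u ((le_max_left _ _).trans hu)
  have hv : ∀ w ∈ Cs, ∀ i, G.valid (G.tlab w i) := fun w hw i => (hG.tp_can w (hC w hw).2 i).1
  have hf : ∀ w ∈ Cs, ∀ i, G.fam (G.tlab w i) = i :=
    fun w hw i => (hG.tp_can w (hC w hw).2 i).2.1
  have hrr := fun w (hw : w ∈ Cs) w' (hw' : w' ∈ Cs) i j =>
    hr1 (G.tlab w i) (G.tlab w' j) (hv w hw i) (hv w' hw' j) (hC w hw).1 (hC w' hw').1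
  have hrep : ∀ i, ∀ w ∈ Cs, ∀ w' ∈ Cs, G.rep (G.tlab w i) = G.rep (G.tlab w' i) →
      r (G.tlab w i) = r (G.tlab w' i) := fun i w hw w' hw' e =>
    (hrr w hw w' hw' i i).1.2 (nglue_same hG (hv w hw i) (hv w' hw' i) e)
  let P : Fin 3 → Finset Pt := fun i => Cs.image fun w => r (G.tlab w i)
  have hT : ∀ τ, τ ∈ G.trip r Cs ↔ ∃ w ∈ Cs, (fun i => r (G.tlab w i)) = τ := fun τ =>
    nglue_trip.trans ⟨fun ⟨w, h1, _, h3⟩ => ⟨w, h1, h3⟩,
      fun ⟨w, h1, h3⟩ => ⟨w, h1, (hC w h1).2, h3⟩⟩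
  have hTS : TS k ((K + 1) * u) P (G.trip r Cs) := by
    refine ⟨fun i => ?_, fun i j hij => ?_, ?_, ?_, ?_, ?_, ?_⟩
    · refine (card_image_le_of_imp Cs _ _ (hrep i)).trans
        ((card_le_card (image_subset_image fun w hw => mem_filter.2 (hC w hw))).trans
          ((hKu i).trans (Nat.mul_le_mul_right _ (Nat.le_succ K))))
    · refine disjoint_left.2 fun p hp hq => hij ?_
      obtain ⟨w, hw, rfl⟩ := mem_image.1 hp
      obtain ⟨w', hw', e⟩ := mem_image.1 hq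
      have := hG.same_fam _ _ (hv w hw i) (hv w' hw' j) ((hrr w hw w' hw' i j).1.1 e.symm)
      rwa [hf w hw, hf w' hw'] at this
    · intro i j p hp q hq e
      obtain ⟨w, hw, rfl⟩ := mem_image.1 hp
      obtain ⟨w', hw', rfl⟩ := mem_image.1 hq
      exact (hrr w hw w' hw' i j).2 e
    · intro z S hS hz
      refine hr2 z S (fun p hp => ?_) hz
      obtain ⟨i, hi⟩ := hS p hp
      obtain ⟨w, hw, rfl⟩ := mem_image.1 hi
      exact ⟨_, hv w hw i, (hC w hw).1, rfl⟩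
    · intro τ hτ i
      obtain ⟨w, hw, rfl⟩ := (hT τ).1 hτ
      exact mem_image_of_mem _ hw
    · intro τ hτ
      obtain ⟨w, hw, rfl⟩ := (hT τ).1 hτ
      exact hr3 w (hC w hw).1 (hC w hw).2
    · intro τ hτ τ' hτ' z hz hz'
      obtain ⟨w, hw, rfl⟩ := (hT τ).1 hτ
      obtain ⟨w', hw', rfl⟩ := (hT τ').1 hτ'
      rw [hr4 w (hC w hw).1 w' (hC w' hw').1 (hC w hw).2 (hC w' hw').2 z hz hz']
  have hTc : Cs.card ≤ (G.trip r Cs).card := by
    refine card_le_card_of_injOn (fun w i => r (G.tlab w i))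
      (fun w hw => mem_coe.2 ((hT _).2 ⟨w, hw, rfl⟩)) fun w hw w' hw' e => ?_
    obtain ⟨z, hz⟩ := hr3 w (hC w hw).1 (hC w hw).2
    have e' : ∀ i, r (G.tlab w i) = r (G.tlab w' i) := fun i => congrFun e i
    exact hr4 w (hC w hw).1 w' (hC w' hw').1 (hC w hw).2 (hC w' hw').2 z hz
      fun i => e' i ▸ hz i
  choose π' hπ' using fun i => nglue_desc Cs (fun w => r (G.tlab w i))
    (fun w => π i (G.tlab w i)) fun w hw w' hw' e =>
      (hline i w hw w' hw' ((hrr w hw w' hw' i i).1.1 e)).1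
  choose φ' hφ' using fun x i => nglue_desc Cs (fun w => r (G.tlab w i))
    (fun w => φ x i (G.tlab w i)) fun w hw w' hw' e =>
      (hline i w hw w' hw' ((hrr w hw w' hw' i i).1.1 e)).2 x
  have hfib : ∀ x, ∀ τ ∈ fibT (G.trip r Cs) π' x, ∃ w ∈ Cs, (fun i => r (G.tlab w i)) = τ ∧
      ∀ j, π j (G.tlab w j) = x j := by
    intro x τ hτ
    obtain ⟨w, hw, rfl⟩ := (hT τ).1 (mem_fibT.1 hτ).1
    exact ⟨w, hw, rfl, fun j => (hπ' j w hw).symm.trans ((mem_fibT.1 hτ).2 j)⟩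
  have hcub := hgl ((K + 1) * u)
    (((le_max_right _ _).trans hu).trans (Nat.le_mul_of_pos_left u (Nat.succ_pos K))) ℝ P _ hTS
    (by
      have e : γ / ((K + 1 : ℕ) : ℝ) ^ 2 * (((K + 1) * u : ℕ) : ℝ) ^ 2 = γ * (u : ℝ) ^ 2 := by
        rw [Nat.cast_mul]; field_simp
      rw [e]
      exact hcard.trans (by exact_mod_cast hTc)) π'
    (by
      intro τ hτ
      obtain ⟨w, hw, rfl⟩ := (hT τ).1 hτ
      rw [← (hsum w hw).1]
      exact sum_congr rfl fun i _ => hπ' i w hw)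
    (by
      intro x n hn hP hε'
      have hsub : ∀ i, (fibT (G.trip r Cs) π' x).image (fun τ => τ i) ⊆
          fib (P i) (π' i) (x i) := by
        intro i p hp
        obtain ⟨τ, hτ, rfl⟩ := mem_image.1 hp
        exact mem_fib.2 ⟨hTS.mem τ (mem_fibT.1 hτ).1 i, (mem_fibT.1 hτ).2 i⟩
      refine hadd n hn W (fun i => (fibT (G.trip r Cs) π' x).image fun τ => τ i) _
        (ts_mono hTS (fun i p hp => (mem_fib.1 (hsub i hp)).1) (fun τ hτ => (mem_fibT.1 hτ).1)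
          (fun τ hτ i => mem_image_of_mem _ hτ) fun i => (card_le_card (hsub i)).trans (hP i))
        hε' (φ' x) (fun τ hτ => ?_) fun i y => ?_
      · obtain ⟨w, hw, rfl, hx⟩ := hfib x τ hτ
        rw [← (hsum w hw).2, funext hx]
        exact sum_congr rfl fun i _ => hφ' x i w hw
      · refine le_trans ?_ ((card_image_le_of_imp _ (fun w => r (G.tlab w i)) _
          fun w hw w' hw' => hrep i w (mem_filter.1 hw).1 w' (mem_filter.1 hw').1).trans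
          (hM x i y))
        refine card_le_card fun p hp => ?_
        obtain ⟨τ, hτ, rfl⟩ := mem_image.1 (mem_fib.1 hp).1
        obtain ⟨w, hw, rfl, hx⟩ := hfib x τ hτ
        exact mem_image.2 ⟨w, mem_filter.2 ⟨hw, hx,
          (hφ' x i w hw).symm.trans (mem_fib.1 hp).2⟩, rfl⟩)
  refine hr5 (cub_mono hcub (fun τ hτ => ?_) (le_of_eq ?_))
  · obtain ⟨w, hw, h1, h3⟩ := nglue_trip.1 hτ
    exact nglue_trip.2 ⟨w, (hC w hw).1, h1, h3⟩
  · rw [Nat.cast_mul]; ring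

end ECub.B
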