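import Pool.Agent.P.MP_029dcd_co.F.B.Basic

/-! Layer B: one step of the multi-scale gluing. -/

set_option autoImplicit false

namespace ECub.B

open CubicStab Finset

variable {k N : ℕ} {P : Fin 3 → Finset Pt} {T : Finset (Fin 3 → Pt)}

lemma step_tile_sub (D : Finset (Fin 3 → Pt)) (q : (Fin 3 → Pt) → Z2) (y : Z2) :
    tile D q y ⊆ D := fun _ hτ => (mem_tile.1 hτ).1

lemma step_sum_tile (D : Finset (Fin 3 → Pt)) (q : (Fin 3 → Pt) → Z2) (Y : Finset Z2) :
    ∑ y ∈ Y, ((tile D q y).card : ℝ) = ((D.filter fun τ => q τ ∈ Y).card : ℝ) := by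
  have := sum_card_fiberwise_eq_card_filter D Y q
  unfold tile
  exact_mod_cast this

/-- heavy tiles for one family -/
lemma step_heavy (h : TS k N P T) (q : (Fin 3 → Pt) → Z2) {v K : ℝ} (hv : 0 < v) (i : Fin 3)
    (hq : ∀ p, ((met T q i p).card : ℝ) * v ≤ 20 * N) (Y : Finset Z2)
    (hY : ∀ y ∈ Y, K * v < ((tile T q y).image fun τ => τ i).card) :
    (Y.card : ℝ) * (K * v ^ 2) ≤ 20 * (N : ℝ) ^ 2 := by
  classical
  have h1 : ∑ y ∈ Y, ((tile T q y).image fun τ => τ i).card ≤ ∑ p ∈ P i, (met T q i p).card := by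
    calc _ ≤ ∑ y ∈ Y, ((P i).bipartiteAbove (fun y p => y ∈ met T q i p) y).card := by
          refine sum_le_sum fun y _ => card_le_card fun p hp => ?_
          obtain ⟨τ, hτ, rfl⟩ := mem_image.1 hp
          rw [mem_bipartiteAbove]
          exact ⟨h.mem τ (mem_tile.1 hτ).1 i,
            mem_met.2 ⟨τ, (mem_tile.1 hτ).1, rfl, (mem_tile.1 hτ).2⟩⟩
      _ = ∑ p ∈ P i, (Y.bipartiteBelow (fun y p => y ∈ met T q i p) p).card :=
          sum_card_bipartiteAbove_eq_sum_card_bipartiteBelow _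
      _ ≤ _ := by
          refine sum_le_sum fun p _ => card_le_card fun y hy => ?_
          rw [mem_bipartiteBelow] at hy
          exact hy.2
  have h2 : ∑ y ∈ Y, (((tile T q y).image fun τ => τ i).card : ℝ)
      ≤ ∑ p ∈ P i, ((met T q i p).card : ℝ) := by exact_mod_cast h1
  have h3 : (Y.card : ℝ) * (K * v) ≤ ∑ y ∈ Y, (((tile T q y).image fun τ => τ i).card : ℝ) := by
    rw [← nsmul_eq_mul]
    exact card_nsmul_le_sum _ _ _ fun y hy => (hY y hy).le
  have h4 : (∑ p ∈ P i, ((met T q i p).card : ℝ)) * v ≤ (P i).card * (20 * (N : ℝ)) := by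
    rw [sum_mul, ← nsmul_eq_mul]
    exact sum_le_card_nsmul _ _ _ fun p _ => hq p
  have h5 : ((P i).card : ℝ) ≤ N := by exact_mod_cast h.card_le i
  have h6 : ((P i).card : ℝ) * (20 * (N : ℝ)) ≤ N * (20 * (N : ℝ)) :=
    mul_le_mul_of_nonneg_right h5 (by positivity)
  have h7 := mul_le_mul_of_nonneg_right (h3.trans h2) hv.le
  calc _ = (Y.card : ℝ) * (K * v) * v := by ring
    _ ≤ N * (20 * (N : ℝ)) := h7.trans (h4.trans h6)
    _ = _ := by ring

/-- heavy tiles for the first two families -/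
lemma step_heavy2 (h : TS k N P T) (q : (Fin 3 → Pt) → Z2) {v K : ℝ} (hv : 0 < v) (_hK : 0 < K)
    (hq : ∀ i : Fin 3, i ≠ 2 → ∀ p, ((met T q i p).card : ℝ) * v ≤ 20 * N) (Y : Finset Z2)
    (hY : ∀ y ∈ Y, K * v < ((tile T q y).image fun τ => τ 0).card ∨
      K * v < ((tile T q y).image fun τ => τ 1).card) :
    (Y.card : ℝ) * (K * v ^ 2) ≤ 40 * (N : ℝ) ^ 2 := by
  classical
  have h0 := step_heavy h q (K := K) hv 0 (hq 0 (by decide))
    (Y.filter fun y => K * v < ((tile T q y).image fun τ => τ 0).card)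
    fun y hy => (mem_filter.1 hy).2
  have h1 := step_heavy h q (K := K) hv 1 (hq 1 (by decide))
    (Y.filter fun y => ¬ K * v < ((tile T q y).image fun τ => τ 0).card)
    fun y hy => (hY y (mem_filter.1 hy).1).resolve_left (mem_filter.1 hy).2
  have h2 := card_filter_add_card_filter_not (s := Y)
    fun y => K * v < ((tile T q y).image fun τ => τ 0).card
  rw [← h2]
  push_cast
  linarith

open Classical in
/-- there are few tiles with many points of the first or second family -/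
theorem heavy_count (h : TS k N P T) (q : (Fin 3 → Pt) → Z2) {v K : ℝ} (hv : 0 < v) (hK : 0 < K)
    (hq : ∀ i : Fin 3, i ≠ 2 → ∀ p, ((met T q i p).card : ℝ) * v ≤ 20 * N) :
    (((T.image q).filter fun y => K * v < ((tile T q y).image fun τ => τ 0).card ∨
      K * v < ((tile T q y).image fun τ => τ 1).card).card : ℝ) * (K * v ^ 2)
      ≤ 40 * (N : ℝ) ^ 2 := by
  exact step_heavy2 h q hv hK hq _ fun y hy => (mem_filter.1 hy).2

theorem glue_base (h : TS k N P T) (q : (Fin 3 → Pt) → Z2) {v K η γ : ℝ} (hv : 0 < v)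
    (hK : 0 < K) (hη : 0 < η)
    (hq : ∀ i : Fin 3, i ≠ 2 → ∀ p, ((met T q i p).card : ℝ) * v ≤ 20 * N)
    (hbig : 9 * ((k : ℝ) + 1) * K < η * v)
    (hgood : γ * (N : ℝ) ^ 2 ≤ v ^ 2 * (good T q (η * v ^ 2)).card) :
    η * (γ - 40 / K) * (N : ℝ) ^ 2 ≤ (CovT P T q (η * v ^ 2)).card := by
  classical
  set H : Z2 → Prop := fun y => K * v < ((tile T q y).image fun τ => τ 0).card ∨
    K * v < ((tile T q y).image fun τ => τ 1).card with hH
  have h1 := step_heavy2 h q hv hK hq ((good T q (η * v ^ 2)).filter H)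
    fun y hy => (mem_filter.1 hy).2
  have h2 := card_filter_add_card_filter_not (s := good T q (η * v ^ 2)) H
  have h3 : ∀ y ∈ (good T q (η * v ^ 2)).filter fun y => ¬ H y,
      η * v ^ 2 ≤ ((tile (CovT P T q (η * v ^ 2)) q y).card : ℝ) := by
    intro y hy
    obtain ⟨hg, hn⟩ := mem_filter.1 hy
    rw [hH, not_or, not_lt, not_lt] at hn
    obtain ⟨S, hS, hc⟩ := col_of_cub h (step_tile_sub T q y)
      (fun τ hτ => mem_image_of_mem (fun τ => τ 0) hτ)
      (fun τ hτ => mem_image_of_mem (fun τ => τ 1) hτ) hn.1 hn.2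
      (by nlinarith [mul_lt_mul_of_pos_right hbig hv]) (mem_good.1 hg).2
    refine hc.trans (Nat.cast_le.2 (card_le_card fun τ hτ => ?_))
    obtain ⟨a1, a2⟩ := mem_covS.1 hτ
    obtain ⟨a3, a4⟩ := mem_tile.1 a1
    exact mem_tile.2 ⟨mem_CovT.2 ⟨a3, S, hS, a2, by rw [a4]; exact hc⟩, a4⟩
  have h4 := card_nsmul_le_sum _ _ _ h3
  rw [nsmul_eq_mul, step_sum_tile] at h4
  have h5 := h4.trans (Nat.cast_le.2 (card_le_card (filter_subset _ _)))
  refine le_trans ?_ h5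
  have h6 : (((good T q (η * v ^ 2)).filter H).card : ℝ) * v ^ 2 ≤ 40 / K * (N : ℝ) ^ 2 := by
    rw [div_mul_eq_mul_div, le_div_iff₀ hK]
    linarith
  rw [← h2] at hgood
  push_cast at hgood
  have h7 : (γ - 40 / K) * (N : ℝ) ^ 2 ≤
      (((good T q (η * v ^ 2)).filter fun y => ¬ H y).card : ℝ) * v ^ 2 := by linarith
  calc _ = η * ((γ - 40 / K) * (N : ℝ) ^ 2) := by ring
    _ ≤ η * ((((good T q (η * v ^ 2)).filter fun y => ¬ H y).card : ℝ) * v ^ 2) :=
        mul_le_mul_of_nonneg_left h7 hη.le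
    _ = _ := by ring

theorem glue_step (h : TS k N P T) (q q' : (Fin 3 → Pt) → Z2)
    (href : ∀ τ ∈ T, ∀ τ' ∈ T, q τ = q τ' → q' τ = q' τ') {v K z σ : ℝ} (hv : 0 < v)
    (hK : 0 < K) (hz : 0 ≤ z) (hσ : 0 ≤ σ) (hsz : ∀ y, ((tile T q' y).card : ℝ) ≤ v ^ 2)
    (hnum : ((T.image q').card : ℝ) * v ^ 2 ≤ 49 * (N : ℝ) ^ 2)
    (hq : ∀ i : Fin 3, i ≠ 2 → ∀ p, ((met T q' i p).card : ℝ) * v ≤ 20 * N)
    (hKz : 36 * (K * v) ^ 3 ≤ z ^ 2) :
    ((CovT P T q z).card : ℝ) ≤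
      (CovT P T q' (σ ^ 2 * v ^ 2)).card + (40 / K + 98 * K * σ) * (N : ℝ) ^ 2 := by
  classical
  set H : Z2 → Prop := fun y => K * v < ((tile T q' y).image fun τ => τ 0).card ∨
    K * v < ((tile T q' y).image fun τ => τ 1).card with hH
  set D := CovT P T q z \ CovT P T q' (σ ^ 2 * v ^ 2) with hD
  have hDT : D ⊆ T := fun τ hτ => (mem_CovT.1 (mem_sdiff.1 hτ).1).1
  have htile : ∀ y, tile D q' y ⊆ tile T q' y := fun y τ hτ =>
    mem_tile.2 ⟨hDT (mem_tile.1 hτ).1, (mem_tile.1 hτ).2⟩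
  have h0 : ((CovT P T q z).card : ℝ) ≤ D.card + (CovT P T q' (σ ^ 2 * v ^ 2)).card := by
    exact_mod_cast card_le_card_sdiff_add_card
  have h1 := step_heavy2 h q' hv hK hq ((T.image q').filter H) fun y hy => (mem_filter.1 hy).2
  have h2 : (D.card : ℝ) = ∑ y ∈ T.image q', ((tile D q' y).card : ℝ) := by
    rw [step_sum_tile, filter_true_of_mem fun τ hτ => mem_image_of_mem q' (hDT hτ)]
  rw [← sum_filter_add_sum_filter_not _ H] at h2
  have h3 : ∑ y ∈ (T.image q').filter H, ((tile D q' y).card : ℝ)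
      ≤ ((T.image q').filter H).card * v ^ 2 := by
    rw [← nsmul_eq_mul]
    exact sum_le_card_nsmul _ _ _ fun y _ =>
      (Nat.cast_le.2 (card_le_card (htile y))).trans (hsz y)
  have h4 : ∑ y ∈ (T.image q').filter (fun y => ¬ H y), ((tile D q' y).card : ℝ)
      ≤ ((T.image q').filter fun y => ¬ H y).card * (2 * K * σ * v ^ 2) := by
    rw [← nsmul_eq_mul]
    refine sum_le_card_nsmul _ _ _ fun y hy => ?_
    have hn := (mem_filter.1 hy).2
    rw [hH, not_or, not_lt, not_lt] at hn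
    have a0 := tile_bound h (step_tile_sub T q' y) (htile y)
      (fun τ hτ => mem_image_of_mem (fun τ => τ 0) hτ)
      (fun τ hτ => mem_image_of_mem (fun τ => τ 1) hτ) hn.1 hn.2 hz
      (x := σ ^ 2 * v ^ 2) (by positivity) hKz (fun τ hτ => by
        obtain ⟨a1, a2⟩ := mem_tile.1 hτ
        obtain ⟨a3, a4⟩ := mem_sdiff.1 a1
        obtain ⟨a5, S, hS, a6, a7⟩ := mem_CovT.1 a3
        refine ⟨S, hS, a6, a7.trans (Nat.cast_le.2 (card_le_card (covS_mono S fun τ' hτ' => ?_))),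
          ?_⟩
        · obtain ⟨a8, a9⟩ := mem_tile.1 hτ'
          exact mem_tile.2 ⟨a8, (href τ' a8 τ a5 a9).trans a2⟩
        · by_contra hlt
          exact a4 (mem_CovT.2 ⟨a5, S, hS, a6, by rw [a2]; exact (not_le.1 hlt).le⟩))
    refine (pow_le_pow_iff_left₀ (by positivity) (by positivity) two_ne_zero).1 (a0.trans_eq ?_)
    ring
  have h5 : (((T.image q').filter H).card : ℝ) * v ^ 2 ≤ 40 / K * (N : ℝ) ^ 2 := by
    rw [div_mul_eq_mul_div, le_div_iff₀ hK]
    linarith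
  have h6 : (((T.image q').filter fun y => ¬ H y).card : ℝ) ≤ (T.image q').card :=
    Nat.cast_le.2 (card_le_card (filter_subset _ _))
  have h7 : (((T.image q').filter fun y => ¬ H y).card : ℝ) * (2 * K * σ * v ^ 2)
      ≤ 98 * K * σ * (N : ℝ) ^ 2 := by
    calc _ ≤ ((T.image q').card : ℝ) * (2 * K * σ * v ^ 2) :=
          mul_le_mul_of_nonneg_right h6 (by positivity)
      _ = 2 * K * σ * (((T.image q').card : ℝ) * v ^ 2) := by ring
      _ ≤ 2 * K * σ * (49 * (N : ℝ) ^ 2) := mul_le_mul_of_nonneg_left hnum (by positivity)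
      _ = _ := by ring
  linarith

theorem glue_top (h : TS k N P T) (hN : 0 < N) (q : (Fin 3 → Pt) → Z2) {z c : ℝ} (hz : 0 ≤ z)
    (hc : 0 < c) (hNz : 36 * (N : ℝ) ^ 3 ≤ z ^ 2)
    (hD : c * (N : ℝ) ^ 2 ≤ (CovT P T q z).card) : Cub (c ^ 2 / 8 * (N : ℝ) ^ 2) T := by
  by_contra hn
  have hN' : (0 : ℝ) < N := by exact_mod_cast hN
  have a0 := tile_bound h (Subset.refl T) (D := CovT P T q z) (fun τ hτ => (mem_CovT.1 hτ).1)
    (fun τ hτ => h.mem τ hτ 0) (fun τ hτ => h.mem τ hτ 1) (m := N)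
    (by exact_mod_cast h.card_le 0) (by exact_mod_cast h.card_le 1) hz
    (x := c ^ 2 / 8 * (N : ℝ) ^ 2) (by positivity) hNz (fun τ hτ => by
      obtain ⟨-, S, hS, a6, a7⟩ := mem_CovT.1 hτ
      refine ⟨S, hS, a6,
        a7.trans (Nat.cast_le.2 (card_le_card (covS_mono S (step_tile_sub T q _)))), ?_⟩
      by_contra hlt
      exact hn (cub_of_col hS (not_le.1 hlt).le))
  have a1 : (c * (N : ℝ) ^ 2) ^ 2 ≤ ((CovT P T q z).card : ℝ) ^ 2 :=
    pow_le_pow_left₀ (by positivity) hD 2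
  have a2 : 0 < (c * (N : ℝ) ^ 2) ^ 2 := by positivity
  have a3 : 4 * (c ^ 2 / 8 * (N : ℝ) ^ 2) * (N : ℝ) ^ 2 = (c * (N : ℝ) ^ 2) ^ 2 / 2 := by ring
  linarith

end ECub.B
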